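import Pool.Agent.PX88.Blk

/-!
Assembly: the systems of three blocks of the principal truncation along `G` are connected.

* `conn_Q`: the colour does not depend on `Q`.
* `cover`: every partition for the truncation comes from a partition of some `E ∪ Q`.
* `wh_tt`: the statement.
-/

set_option autoImplicit false

namespace Pool.Agent.PX88

open Finset Pool.Agent.DT3 Pool.Agent.CF98 Pool.Agent.SL65

variable {α : Type*} [DecidableEq α] {r : Finset α → ℕ} {x y : α}
  {G E A P C S X Y Z Q Q' : Finset α} {g f : ℕ} {κ : Finset α → Prop}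

/-- The colour does not depend on `Q`. -/
theorem conn_Q (hS : Sys r G E g) (hE3 : E.card = 3 * g) (hκ : Cst (tt r G) E g κ)
    (hH : ∀ F, Env r F (g + 1) → Wh r F (g + 1)) (n : ℕ) :
    ∀ Q Q' : Finset α, (Q \ Q').card = n → Cop r G Q → Cop r G Q' → Disjoint E Q → Disjoint E Q' →
      Q.card = 3 → Q'.card = 3 →
      Env r (E ∪ Q) (g + 1) → Env r (E ∪ Q') (g + 1) → ∀ X Y Z X' Y' Z', T3 r (E ∪ Q) (g + 1) X Y Z →
      T3 r (E ∪ Q') (g + 1) X' Y' Z' → Kh r G E g κ (X ∩ E) → Kh r G E g κ (X' ∩ E) := by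
  induction n with
  | zero =>
    intro Q Q' h0 hQ hQ' hd hd' h3 h3' hv hv' X Y Z X' Y' Z' t1 t2 hX
    have hs : Q ⊆ Q' := sdiff_eq_empty_iff_subset.1 (card_eq_zero.1 h0)
    have he : Q = Q' := eq_of_subset_of_card_le hs (by omega)
    subst he
    exact hH _ hv _ (kh_cst hS hκ hQ hd h3) _ _ _ _ _ _ t1 t2 hX
  | succ n ih =>
    intro Q Q' h0 hQ hQ' hd hd' h3 h3' hv hv' X Y Z X' Y' Z' t1 t2 hX
    have hne : (Q \ Q').Nonempty := by
      rw [← card_pos]
      omega
    obtain ⟨x, hxx⟩ := hne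
    obtain ⟨hx, hx'⟩ := mem_sdiff.1 hxx
    have hxE : x ∉ E := fun hn => disjoint_left.1 hd hn hx
    obtain ⟨y, hy, hy', hval⟩ := exch3 hS.rk hv.three hv'.three hd' (h3.trans h3'.symm) hx hx' hxE
    have hyE : y ∉ E := fun hn => disjoint_left.1 hd' hn hy
    set Q₁ : Finset α := insert y (Q.erase x) with hQ₁
    have hyx : y ≠ x := fun e => hy' (e ▸ hx)
    have hQ₁s : Cop r G Q₁ := by
      intro q hq
      rcases mem_insert.1 hq with rfl | hq
      · exact hQ' _ hy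
      · exact hQ q (mem_of_mem_erase hq)
    have hd₁ : Disjoint E Q₁ := by
      rw [disjoint_right]
      intro q hq hn
      rcases mem_insert.1 hq with rfl | hq
      · exact hyE hn
      · exact disjoint_left.1 hd hn (mem_of_mem_erase hq)
    have hQ₁c : Q₁.card = 3 := by
      rw [hQ₁, card_insert_of_notMem (fun hn => hy' (mem_of_mem_erase hn)), card_erase_add_one hx, h3]
    have hv₁ : Env r (E ∪ Q₁) (g + 1) := by
      refine ⟨hS.rk, ?_, ?_, hval⟩
      · rw [card_union_of_disjoint hd₁, hE3, hQ₁c]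
        omega
      · rw [rank_Q hS.rk hQ₁s hS.spE, hS.rE]
    have w1 : (insert y (E ∪ Q)).erase x = E ∪ Q₁ := by
      ext z
      simp only [hQ₁, mem_erase, mem_insert, mem_union]
      constructor
      · rintro ⟨k1, rfl | k2 | k2⟩
        · exact Or.inr (Or.inl rfl)
        · exact Or.inl k2
        · exact Or.inr (Or.inr ⟨k1, k2⟩)
      · rintro (k1 | rfl | ⟨k1, k2⟩)
        · exact ⟨fun e => hxE (e ▸ k1), Or.inr (Or.inl k1)⟩
        · exact ⟨hyx, Or.inl rfl⟩
        · exact ⟨k1, Or.inr (Or.inr k2)⟩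
    have hyEQ : y ∉ E ∪ Q := by
      intro hn
      rcases mem_union.1 hn with hn | hn
      · exact hyE hn
      · exact hy' hn
    have w2 : (insert y (E ∪ Q)).erase y = E ∪ Q := erase_insert hyEQ
    have w3 : r (insert y (E ∪ Q)) = g + 1 := by
      have e : insert y (E ∪ Q) = E ∪ insert y Q := by rw [union_insert]
      have hc : Cop r G (insert y Q) := by
        intro q hq
        rcases mem_insert.1 hq with rfl | hq
        · exact hQ' _ hy
        · exact hQ q hq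
      rw [e, rank_Q hS.rk hc hS.spE, hS.rE]
    obtain ⟨A, hA1, hA2⟩ := link (f := g + 1) hS.rk w3 (x := x) (y := y)
      (mem_insert_of_mem (mem_union_right _ hx)) hyx.symm (by rw [w1]; exact hv₁) (by rw [w2]; exact hv)
    rw [w1] at hA1
    rw [w2] at hA2
    obtain ⟨B, C, hABC⟩ := gd_T3 hv hA2
    obtain ⟨B', C', hABC'⟩ := gd_T3 hv₁ hA1
    have hcard : (Q₁ \ Q').card = n := by
      have e : Q₁ \ Q' = (Q \ Q').erase x := by
        ext z
        simp only [hQ₁, mem_sdiff, mem_erase, mem_insert]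
        constructor
        · rintro ⟨rfl | ⟨k1, k2⟩, k3⟩
          · exact absurd hy k3
          · exact ⟨k1, k2, k3⟩
        · rintro ⟨k1, k2, k3⟩
          exact ⟨Or.inr ⟨k1, k2⟩, k3⟩
      rw [e, card_erase_of_mem (mem_sdiff.2 ⟨hx, hx'⟩), h0]
      omega
    have key := hH _ hv _ (kh_cst hS hκ hQ hd h3) _ _ _ _ _ _ t1 hABC hX
    exact ih Q₁ Q' hcard hQ₁s hQ' hd₁ hd' hQ₁c h3' hv₁ hv' _ _ _ _ _ _ hABC' t2 key

/-- A basis of the truncation extends by a copy of an element of `G`. -/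
theorem ext_one (hS : Sys r G E g) (hP : Bs (tt r G) g P) {u : α → α}
    (hu : ∀ x ∈ G, ∀ X, r (insert (u x) X) = r (insert x X)) :
    ∃ x ∈ G, r (insert (u x) P) = g + 1 := by
  have h1 := hP.1
  have h2 : tt r G P = g := hP.2
  have h3 := hS.rk.le_card P
  have h4 := tt_le (r := r) (G := G) P
  have h6 : g + 1 ≤ r (P ∪ G) := by
    unfold tt at h2
    have := ab_pos hS.rk hS.ab P
    omega
  by_contra hcon
  push Not at hcon
  have h7 : r (P ∪ G) = r P := by
    refine rk_union_eq hS.rk ?_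
    intro x hx
    by_contra hne
    have h8 := rk_ins_ne hS.rk hne
    have h9 := hcon x hx
    rw [hu x hx] at h9
    omega
  omega

/-- Every partition for the truncation comes from a partition of some `E ∪ Q`. -/
theorem cover (hS : Sys r G E g) {u : Fin 3 → α → α}
    (hu : ∀ k, ∀ x ∈ G, ∀ X, r (insert (u k x) X) = r (insert x X))
    (hd : ∀ k l x y, k ≠ l → u k x ≠ u l y) (uE : ∀ k x, u k x ∉ E) (h : T3 (tt r G) E g X Y Z) :
    ∃ Q, Cop r G Q ∧ Disjoint E Q ∧ Q.card = 3 ∧ ∃ X' Y' Z', T3 r (E ∪ Q) (g + 1) X' Y' Z' ∧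
      X' ∩ E = X := by
  obtain ⟨x0, h0, r0⟩ := ext_one hS h.a (hu 0)
  obtain ⟨x1, h1, r1⟩ := ext_one hS h.b (hu 1)
  obtain ⟨x2, h2, r2⟩ := ext_one hS h.c (hu 2)
  have d01 : u 0 x0 ≠ u 1 x1 := hd _ _ _ _ (by decide)
  have d02 : u 0 x0 ≠ u 2 x2 := hd _ _ _ _ (by decide)
  have d12 : u 1 x1 ≠ u 2 x2 := hd _ _ _ _ (by decide)
  have e0 := uE 0 x0
  have e1 := uE 1 x1
  have e2 := uE 2 x2
  have c0 := hu 0 x0 h0
  have c1 := hu 1 x1 h1
  have c2 := hu 2 x2 h2
  generalize u 0 x0 = q0 at *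
  generalize u 1 x1 = q1 at *
  generalize u 2 x2 = q2 at *
  refine ⟨{q0, q1, q2}, ?_, ?_, ?_, insert q0 X, insert q1 Y, insert q2 Z, ⟨⟨?_, r0⟩, ⟨?_, r1⟩, ⟨?_, r2⟩,
    ?_, ?_, ?_, ?_⟩, ?_⟩
  · intro z hz
    rw [mem_insert, mem_insert, mem_singleton] at hz
    rcases hz with rfl | rfl | rfl
    · exact ⟨x0, h0, c0⟩
    · exact ⟨x1, h1, c1⟩
    · exact ⟨x2, h2, c2⟩
  · rw [disjoint_right]
    intro z hz
    rw [mem_insert, mem_insert, mem_singleton] at hz
    rcases hz with rfl | rfl | rfl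
    · exact e0
    · exact e1
    · exact e2
  · rw [card_eq_three]
    exact ⟨q0, q1, q2, d01, d02, d12, rfl⟩
  · rw [card_insert_of_notMem (fun hn => e0 (h.subA hn)), h.a.1]
  · rw [card_insert_of_notMem (fun hn => e1 (h.subB hn)), h.b.1]
  · rw [card_insert_of_notMem (fun hn => e2 (h.subC hn)), h.c.1]
  · rw [disjoint_left]
    intro z hz hz'
    rcases mem_insert.1 hz with k1 | k1 <;> rcases mem_insert.1 hz' with k2 | k2
    · exact d01 (k1.symm.trans k2)
    · exact e0 (k1 ▸ h.subB k2)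
    · exact e1 (k2 ▸ h.subA k1)
    · exact disjoint_left.1 h.ab k1 k2
  · rw [disjoint_left]
    intro z hz hz'
    rcases mem_insert.1 hz with k1 | k1 <;> rcases mem_insert.1 hz' with k2 | k2
    · exact d02 (k1.symm.trans k2)
    · exact e0 (k1 ▸ h.subC k2)
    · exact e2 (k2 ▸ h.subA k1)
    · exact disjoint_left.1 h.ac k1 k2
  · rw [disjoint_left]
    intro z hz hz'
    rcases mem_insert.1 hz with k1 | k1 <;> rcases mem_insert.1 hz' with k2 | k2
    · exact d12 (k1.symm.trans k2)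
    · exact e1 (k1 ▸ h.subC k2)
    · exact e2 (k2 ▸ h.subB k1)
    · exact disjoint_left.1 h.bc k1 k2
  · rw [← h.un]
    ext z
    simp only [mem_union, mem_insert, mem_singleton]
    tauto
  · ext z
    rw [mem_inter, mem_insert]
    constructor
    · rintro ⟨rfl | hz, hz'⟩
      · exact absurd hz' e0
      · exact hz
    · exact fun hz => ⟨Or.inr hz, h.subA hz⟩

/-- The systems of the principal truncation along `G`. -/
theorem wh_tt (h : RankFn r) (hG : 1 ≤ r G) {u : Fin 3 → α → α}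
    (hu : ∀ k, ∀ x ∈ G, ∀ X, r (insert (u k x) X) = r (insert x X))
    (hd : ∀ k l x y, k ≠ l → u k x ≠ u l y) (uE : ∀ k x, u k x ∉ E)
    (hH : ∀ F f, Env r F f → Wh r F f) (hE : Env (tt r G) E f) : Wh (tt r G) E f := by
  by_cases hs : sp r G E
  · have h1 := tt_sp h hG hs
    have h2 := hE.rank
    have hS : Sys r G E f := ⟨h, hG, by omega, hs⟩
    intro κ hκ A B C A' B' C' t1 t2 hA
    obtain ⟨Q, hQ, hQE, hQ3, X, Y, Z, s1, s2⟩ := cover hS hu hd uE t1
    obtain ⟨Q', hQ', hQE', hQ3', X', Y', Z', s1', s2'⟩ := cover hS hu hd uE t2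
    have v1 : Env r (E ∪ Q) (f + 1) := env_of_T3 h s1 (by rw [rank_Q h hQ hs, hS.rE])
    have v2 : Env r (E ∪ Q') (f + 1) := env_of_T3 h s1' (by rw [rank_Q h hQ' hs, hS.rE])
    have key := conn_Q hS hE.card hκ (fun F hF => hH F _ hF) _ Q Q' rfl hQ hQ' hQE hQE' hQ3 hQ3' v1 v2
      X Y Z X' Y' Z' s1 s1' (by rw [s2]; exact (kh_g t1.a.1).2 hA)
    rw [s2'] at key
    exact (kh_g t2.a.1).1 key
  · -- the ranks are the same
    have h0 : ∀ Y ⊆ E, tt r G Y = r Y := by
      intro Y hY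
      exact tt_not_sp h (fun hn => hs (hn.mono h hY))
    have hEnv : Env r E f := ⟨h, hE.card, by rw [← h0 E (Subset.refl E)]; exact hE.rank,
      fun X hX => by rw [← h0 X hX]; exact hE.three X hX⟩
    intro κ hκ A B C A' B' C' t1 t2 hA
    have conv : ∀ {A B C}, T3 (tt r G) E f A B C → T3 r E f A B C := by
      intro A B C t
      exact ⟨⟨t.a.1, by rw [← h0 A t.subA]; exact t.a.2⟩, ⟨t.b.1, by rw [← h0 B t.subB]; exact t.b.2⟩,
        ⟨t.c.1, by rw [← h0 C t.subC]; exact t.c.2⟩, t.ab, t.ac, t.bc, t.un⟩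
    have conv' : ∀ {A B C}, T3 r E f A B C → T3 (tt r G) E f A B C := by
      intro A B C t
      exact ⟨⟨t.a.1, by rw [h0 A t.subA]; exact t.a.2⟩, ⟨t.b.1, by rw [h0 B t.subB]; exact t.b.2⟩,
        ⟨t.c.1, by rw [h0 C t.subC]; exact t.c.2⟩, t.ab, t.ac, t.bc, t.un⟩
    exact hH E f hEnv κ (fun A B C t => hκ A B C (conv' t)) _ _ _ _ _ _ (conv t1) (conv t2) hA

end Pool.Agent.PX88
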