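import Pool.Agent.DT3.AppT
import Pool.Agent.SL65.T3

/-!
Linking (the property (S1) of `DT3` for three bases): if `W - x` and `W - y` are systems of three blocks and `r W = f` then they have a
common good basis.
-/

set_option autoImplicit false

namespace Pool.Agent.PX88

open Finset Pool.Agent.DT3 Pool.Agent.CF98 Pool.Agent.SL65

variable {α : Type*} [DecidableEq α] {r : Finset α → ℕ} {x y : α} {E D W : Finset α} {f : ℕ}

/-- Existence of a good basis. -/
theorem ex_gd (hE : Env r E f) : ∃ A, Gd r E f A := by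
  obtain ⟨B, h1, h2, h3, h4⟩ := parts_any hE.rk (k := f) (m := 3) E hE.card hE.three
    (fun Y hY => by rw [← hE.rank]; exact hE.rk.mono _ _ hY)
  have e : E \ (B 0 ∪ B 1) = B 2 := by
    ext z
    rw [mem_sdiff, mem_union]
    constructor
    · rintro ⟨hz, hn⟩
      push Not at hn
      obtain ⟨i, hi⟩ := h4 z hz
      fin_cases i
      · exact absurd hi hn.1
      · exact absurd hi hn.2
      · exact hi
    · intro hz
      refine ⟨h1 2 hz, ?_⟩
      rintro (h | h)
      · exact disjoint_left.1 (h3 0 2 (by decide)) h hz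
      · exact disjoint_left.1 (h3 1 2 (by decide)) h hz
  exact ⟨B 0, gd_of_parts hE (h1 0) (h2 0) (h1 1) (h3 0 1 (by decide)) (h2 1) (by rw [e]; exact h2 2)⟩

theorem link (h : RankFn r) (hW : r W = f) (hx : x ∈ W) (hxy : x ≠ y)
    (h1 : Env r (W.erase x) f) (h2 : Env r (W.erase y) f) :
    ∃ A, Gd r (W.erase x) f A ∧ Gd r (W.erase y) f A := by
  classical
  have hcW := card_erase_add_one hx
  have hcx := h1.card
  obtain ⟨D, hD, hmin⟩ := (W.powerset.filter fun X => 3 * r X + 1 ≤ X.card).exists_min_image card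
    ⟨W, mem_filter.2 ⟨mem_powerset.2 (Subset.refl W), by omega⟩⟩
  rw [mem_filter, mem_powerset] at hD
  have hDs : ∀ X ⊆ D, X ≠ D → X.card ≤ 3 * r X := by
    intro X hX hne
    by_contra hn
    have h2 := hmin X (mem_filter.2 ⟨mem_powerset.2 (hX.trans hD.1), by omega⟩)
    exact hne (eq_of_subset_of_card_le hX h2)
  have hmem : ∀ v, Env r (W.erase v) f → v ∈ D := by
    intro v hv
    by_contra hn
    have h3 := hv.three D (fun z hz => mem_erase.2 ⟨fun e => hn (e ▸ hz), hD.1 hz⟩)
    omega
  have hxD := hmem x h1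
  have hyD := hmem y h2
  have hDc : D.card = 3 * r D + 1 := by
    have h3 := hDs (D.erase x) (erase_subset x D) (by
      intro he
      exact notMem_erase x D (by rw [he]; exact hxD))
    have h4 := card_erase_add_one hxD
    have h5 := h.mono _ _ (erase_subset x D)
    omega
  obtain ⟨T, hTD, hxT, hyT, hTc, hTr, hTx, hTy⟩ := s1r_any (m := 2) h le_rfl hDc hDs hxD hyD hxy
  have hDW := hD.1
  have hrD := h.mono D W hDW
  have hcD := card_sdiff_add_card_eq_card hDW
  have hEnv : Env (fun Y => r (Y ∪ D) - r D) (W \ D) (f - r D) := by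
    refine ⟨contr_rank h D, by omega, ?_, ?_⟩
    · show r (W \ D ∪ D) - r D = f - r D
      rw [sdiff_union_of_subset hDW, hW]
    · intro Y hY
      show Y.card ≤ 3 * (r (Y ∪ D) - r D)
      have hd : Disjoint Y D := disjoint_of_subset_left hY sdiff_disjoint
      have h3 := h1.three (Y ∪ D.erase x) (by
        intro z hz
        rcases mem_union.1 hz with hz | hz
        · have h4 := mem_sdiff.1 (hY hz)
          exact mem_erase.2 ⟨fun e => h4.2 (e ▸ hxD), h4.1⟩
        · exact mem_erase.2 ⟨(mem_erase.1 hz).1, hDW (mem_erase.1 hz).2⟩)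
      have h4 := card_union_of_disjoint (disjoint_of_subset_right (erase_subset x D) hd)
      have h5 := card_erase_add_one hxD
      have h6 := h.mono (Y ∪ D.erase x) (Y ∪ D) (union_subset_union_right (erase_subset x D))
      omega
  obtain ⟨O, hO1, ⟨hO2, hO3⟩, hO4⟩ := ex_gd hEnv
  change r (O ∪ D) - r D = f - r D at hO3
  have hOD : Disjoint O D := disjoint_of_subset_left hO1 sdiff_disjoint
  have key : ∀ v, v ∈ D → v ∉ T → (∀ Y ⊆ D \ T, v ∉ Y → Y.card ≤ 2 * r Y) →
      Gd r (W.erase v) f (T ∪ O) := by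
    intro v hv hvT hTv
    refine ⟨?_, ⟨?_, ?_⟩, ?_⟩
    · intro z hz
      rcases mem_union.1 hz with hz | hz
      · exact mem_erase.2 ⟨fun e => hvT (e ▸ hz), hDW (hTD hz)⟩
      · have h4 := mem_sdiff.1 (hO1 hz)
        exact mem_erase.2 ⟨fun e => h4.2 (e ▸ hv), h4.1⟩
    · rw [card_union_of_disjoint (disjoint_of_subset_left hTD hOD.symm), hTc, hO2]
      omega
    · rw [rk_cup_congr h hTD hTr O, union_comm]
      have h5 := h.mono D (O ∪ D) subset_union_right
      omega
    · intro X hX
      have h3 : (X ∩ D).card ≤ 2 * r (X ∩ D) := by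
        refine hTv _ ?_ ?_
        · intro z hz
          have h4 := mem_inter.1 hz
          exact mem_sdiff.2 ⟨h4.2, fun hn => (mem_sdiff.1 (hX h4.1)).2 (mem_union_left _ hn)⟩
        · intro hn
          exact (mem_erase.1 (mem_sdiff.1 (hX (mem_inter.1 hn).1)).1).1 rfl
      have h4 : (X \ D).card ≤ 2 * (r (X \ D ∪ D) - r D) := by
        refine hO4 (X \ D) ?_
        intro z hz
        have h5 := mem_sdiff.1 hz
        have h6 := mem_sdiff.1 (hX h5.1)
        exact mem_sdiff.2 ⟨mem_sdiff.2 ⟨(mem_erase.1 h6.1).2, h5.2⟩, fun hn => h6.2 (mem_union_right _ hn)⟩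
      have h5 := h.submod X D
      have h6 := card_sdiff_add_card_inter X D
      rw [sdiff_union_self_eq_union] at h4
      have h7 := h.mono D (X ∪ D) subset_union_right
      omega
  exact ⟨T ∪ O, key x hxD hxT hTx, key y hyD hyT hTy⟩

end Pool.Agent.PX88
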