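import Pool.Agent.CF98.Good

/-!
Exchange for systems of three blocks `E ∪ Q`: if `E ∪ Q` and `E ∪ Q'` satisfy `|X| ≤ 3 r X` for all subsets, `|Q| = |Q'|`, `x ∈ Q \ Q'`,
then there is `y ∈ Q' \ Q` such that `E ∪ (Q - x + y)` has this property.
-/

set_option autoImplicit false

namespace Pool.Agent.PX88

open Finset Pool.Agent.DT3 Pool.Agent.CF98

variable {α : Type*} [DecidableEq α] {r : Finset α → ℕ} {x y : α} {E Q Q' X Y F : Finset α}

theorem exch3 (h : RankFn r) (h1 : ∀ X ⊆ E ∪ Q, X.card ≤ 3 * r X) (h2 : ∀ X ⊆ E ∪ Q', X.card ≤ 3 * r X)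
    (hQE' : Disjoint E Q') (hcard : Q.card = Q'.card) (hx : x ∈ Q) (hx' : x ∉ Q') (hxE : x ∉ E) :
    ∃ y ∈ Q', y ∉ Q ∧ ∀ X ⊆ E ∪ insert y (Q.erase x), X.card ≤ 3 * r X := by
  classical
  by_contra hcon
  push Not at hcon
  -- the largest tight subset of `E ∪ (Q - x)`
  set W : Finset α := E ∪ Q.erase x with hW
  have hWQ : W ⊆ E ∪ Q := union_subset_union_right (erase_subset x Q)
  obtain ⟨Z, hZ, hmax⟩ := (W.powerset.filter fun X => X.card = 3 * r X).exists_max_image card
    ⟨∅, mem_filter.2 ⟨empty_mem_powerset W, by rw [card_empty, h.empty]⟩⟩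
  rw [mem_filter, mem_powerset] at hZ
  have hZmax : ∀ X ⊆ W, X.card = 3 * r X → X ⊆ Z := by
    intro X hX hc
    have k1 := h1 (X ∪ Z) ((union_subset hX hZ.1).trans hWQ)
    have k2 := h1 (X ∩ Z) ((inter_subset_left.trans hX).trans hWQ)
    have k3 := h.submod X Z
    have k4 := card_union_add_card_inter X Z
    have k5 := hmax (X ∪ Z) (mem_filter.2 ⟨mem_powerset.2 (union_subset hX hZ.1), by omega⟩)
    have k6 : Z = X ∪ Z := eq_of_subset_of_card_le subset_union_right k5
    rw [k6]
    exact subset_union_left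
  -- the elements of `Q' \ Q` are spanned by `Z`
  have hspan : ∀ y ∈ Q' \ Q, r (insert y Z) = r Z := by
    intro y hy
    rw [mem_sdiff] at hy
    obtain ⟨X, hX, hXc⟩ := hcon y hy.1 hy.2
    have hyX : y ∈ X := by
      by_contra hyX
      have := h1 X (fun z hz => by
        rcases mem_union.1 (hX hz) with h3 | h3
        · exact mem_union_left _ h3
        · rcases mem_insert.1 h3 with h4 | h4
          · exact absurd (h4 ▸ hz) hyX
          · exact mem_union_right _ (mem_of_mem_erase h4))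
      omega
    have hXW : X.erase y ⊆ W := by
      intro z hz
      rcases mem_union.1 (hX (mem_of_mem_erase hz)) with h3 | h3
      · exact mem_union_left _ h3
      · rcases mem_insert.1 h3 with h4 | h4
        · exact absurd h4 (mem_erase.1 hz).1
        · exact mem_union_right _ h4
    have k1 := h1 (X.erase y) (hXW.trans hWQ)
    have k2 := card_erase_add_one hyX
    have k3 := h.mono _ _ (erase_subset y X)
    have k4 : (X.erase y).card = 3 * r (X.erase y) := by omega
    have k5 : r (insert y (X.erase y)) = r (X.erase y) := by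
      rw [insert_erase hyX]
      omega
    exact h.mono_insert k5 (hZmax _ hXW k4)
  have k1 := rk_union_eq h hspan
  -- counting
  have hxZ : x ∉ Z := by
    intro hn
    rcases mem_union.1 (hZ.1 hn) with h3 | h3
    · exact hxE h3
    · exact notMem_erase x Q h3
  set Z' : Finset α := (Z \ (Q \ Q')) ∪ (Q' \ Q) with hZ'
  have k2 : Z' ⊆ E ∪ Q' := by
    intro z hz
    rcases mem_union.1 hz with hz | hz
    · rw [mem_sdiff, mem_sdiff] at hz
      rcases mem_union.1 (hZ.1 hz.1) with h3 | h3
      · exact mem_union_left _ h3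
      · have h4 := mem_of_mem_erase h3
        by_contra hn
        exact hz.2 ⟨h4, fun h5 => hn (mem_union_right _ h5)⟩
    · exact mem_union_right _ (mem_sdiff.1 hz).1
  have k3 := h2 Z' k2
  have k4 : r Z' ≤ r (Z ∪ Q' \ Q) := h.mono _ _ (union_subset_union_left sdiff_subset)
  have k5 : Disjoint (Z \ (Q \ Q')) (Q' \ Q) := by
    rw [disjoint_left]
    intro z hz hz'
    rw [mem_sdiff] at hz hz'
    rcases mem_union.1 (hZ.1 hz.1) with h3 | h3
    · exact disjoint_left.1 hQE' h3 hz'.1
    · exact hz'.2 (mem_of_mem_erase h3)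
  have k6 := card_union_of_disjoint k5
  have k7 : Z.card ≤ (Z \ (Q \ Q')).card + ((Q \ Q').erase x).card := by
    have h3 : Z ⊆ (Z \ (Q \ Q')) ∪ (Q \ Q').erase x := by
      intro z hz
      by_cases hzQ : z ∈ Q \ Q'
      · exact mem_union_right _ (mem_erase.2 ⟨fun e => hxZ (e ▸ hz), hzQ⟩)
      · exact mem_union_left _ (mem_sdiff.2 ⟨hz, hzQ⟩)
    exact (card_le_card h3).trans (card_union_le _ _)
  have k8 := card_erase_add_one (mem_sdiff.2 ⟨hx, hx'⟩ : x ∈ Q \ Q')
  have k9 := card_sdiff_add_card_inter Q Q'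
  have k10 := card_sdiff_add_card_inter Q' Q
  rw [inter_comm] at k10
  have k11 := hZ.2
  rw [← hZ'] at k6
  omega

end Pool.Agent.PX88
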