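import Pool.Agent.PX88.FA
import Pool.Agent.PX88.Lk
import Pool.Agent.PX88.Vd

/-!
The blocks of the systems `E ∪ Q`, where `Q` consists of three elements each of which is a copy of an element of `G`.

* `Cop r G Q`: the elements of `Q` are copies of elements of `G`.
* `Kh`: the colour of a block in terms of its part in `E`.
* `kh_cst`: the colour is constant on the blocks of a partition of `E ∪ Q` into three bases.
-/

set_option autoImplicit false

namespace Pool.Agent.PX88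

open Finset Pool.Agent.DT3 Pool.Agent.CF98 Pool.Agent.SL65

variable {α : Type*} [DecidableEq α] {r : Finset α → ℕ} {G E A P C D S X Y Z Q : Finset α} {g : ℕ}
  {κ : Finset α → Prop}

/-- The elements of `Q` are copies of elements of `G`. -/
def Cop (r : Finset α → ℕ) (G Q : Finset α) : Prop :=
  ∀ q ∈ Q, ∃ x ∈ G, ∀ X, r (insert q X) = r (insert x X)

theorem absorb (h : RankFn r) (hQ : Cop r G Q) (X : Finset α) : r (X ∪ G ∪ Q) = r (X ∪ G) := by
  refine rk_union_eq h ?_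
  intro q hq
  obtain ⟨x, hx, hqx⟩ := hQ q hq
  rw [hqx, insert_eq_of_mem (mem_union_right _ hx)]

theorem rank_Q (h : RankFn r) (hQ : Cop r G Q) (hE : sp r G E) : r (E ∪ Q) = r E := by
  have h1 := absorb h hQ E
  have h2 := h.mono (E ∪ Q) (E ∪ G ∪ Q) (union_subset_union_left subset_union_left)
  have h3 := h.mono E (E ∪ Q) subset_union_left
  unfold sp at hE
  omega

/-- The parts of a block. -/
theorem blk (h : RankFn r) (hQ : Cop r G Q) (hQE : Disjoint E Q) (hXE : X ⊆ E ∪ Q)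
    (hX : Bs r (g + 1) X) :
    (X ∩ E).card + (X ∩ Q).card = g + 1 ∧ X ∩ E ∪ X ∩ Q = X ∧ r (X ∩ E) = (X ∩ E).card ∧
      g + 1 ≤ r (X ∩ E ∪ G) := by
  have e : X ∩ E ∪ X ∩ Q = X := by
    rw [← inter_union_distrib_left, inter_eq_left.2 hXE]
  refine ⟨?_, e, ind_sub h (hX.2.trans hX.1.symm) inter_subset_left, ?_⟩
  · rw [← card_union_of_disjoint, e, hX.1]
    exact disjoint_of_subset_left inter_subset_right (disjoint_of_subset_right inter_subset_right hQE)
  · have h1 := absorb h hQ (X ∩ E)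
    have h2 := h.mono X (X ∩ E ∪ G ∪ Q) (by
      intro x hx
      rcases mem_union.1 (hXE hx) with h3 | h3
      · exact mem_union_left _ (mem_union_left _ (mem_inter.2 ⟨hx, h3⟩))
      · exact mem_union_right _ h3)
    have h3 := hX.2
    omega

theorem blk_one (h : RankFn r) (hQ : Cop r G Q) (hQE : Disjoint E Q) (hXE : X ⊆ E ∪ Q)
    (hX : Bs r (g + 1) X) (h1 : (X ∩ Q).card = 1) : Bs (tt r G) g (X ∩ E) := by
  obtain ⟨k1, k2, k3, k4⟩ := blk h hQ hQE hXE hX
  refine ⟨by omega, ?_⟩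
  show tt r G (X ∩ E) = g
  unfold tt
  omega

/-- The colour of a block in terms of its part in `E`. -/
def Kh (r : Finset α → ℕ) (G E : Finset α) (g : ℕ) (κ : Finset α → Prop) (S : Finset α) : Prop :=
  (S.card = g ∧ κ S) ∨ KA r G E g κ S ∨ KC r G E g κ S ∨ ∃ C D, Nd3 r G E g S C D ∧ KC r G E g κ C

theorem kh_g (hS : S.card = g) : Kh r G E g κ S ↔ κ S := by
  constructor
  · rintro (⟨-, h⟩ | ⟨P, C, h, -⟩ | ⟨A, P, h, -⟩ | ⟨C, D, h, -⟩)
    · exact h
    · have := h.cA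
      omega
    · have := h.cC
      omega
    · have := h.cA
      omega
  · exact fun h => Or.inl ⟨hS, h⟩

theorem kh_A (hS : Sys r G E g) (hκ : Cst (tt r G) E g κ) (h : Nd r G E g A P C) :
    Kh r G E g κ A ↔ κ P := by
  have h0 := h.cA
  constructor
  · rintro (⟨h1, -⟩ | h1 | ⟨A', P', h1, -⟩ | ⟨C', D', h1, -⟩)
    · omega
    · exact (ka_iff hS hκ h).1 h1
    · have := h1.cC
      omega
    · have := h1.cA
      omega
  · exact fun h1 => Or.inr (Or.inl ((ka_iff hS hκ h).2 h1))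

theorem kh_kc (cC : S.card = g + 1) : Kh r G E g κ S ↔ KC r G E g κ S := by
  constructor
  · rintro (⟨h1, -⟩ | ⟨P', C', h1, -⟩ | h1 | ⟨C', D', h1, -⟩)
    · omega
    · have := h1.cA
      omega
    · exact h1
    · have := h1.cA
      omega
  · exact fun h1 => Or.inr (Or.inr (Or.inl h1))

theorem kh_C (hS : Sys r G E g) (hκ : Cst (tt r G) E g κ) (h : Nd r G E g A P C) :
    Kh r G E g κ C ↔ κ P := by
  rw [kh_kc h.cC]
  exact kc_iff hS hκ h

theorem kh_P (h : Nd r G E g A P C) : Kh r G E g κ P ↔ κ P := kh_g h.cP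

theorem kh_3A (hS : Sys r G E g) (hκ : Cst (tt r G) E g κ) (h : Nd3 r G E g A C D) :
    Kh r G E g κ A ↔ KC r G E g κ C := by
  have h0 := h.cA
  constructor
  · rintro (⟨h1, -⟩ | ⟨P', C', h1, -⟩ | ⟨A', P', h1, -⟩ | ⟨C', D', h1, h2⟩)
    · omega
    · have := h1.cA
      omega
    · have := h1.cC
      omega
    · exact fa3 hS hκ h1 h h2
  · exact fun h1 => Or.inr (Or.inr (Or.inr ⟨C, D, h, h1⟩))

/-- A partition with two, one, no new elements in the blocks. -/
theorem nd_of (h : RankFn r) (hQ : Cop r G Q) (hQE : Disjoint E Q)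
    (t : T3 r (E ∪ Q) (g + 1) X Y Z) (hX : (X ∩ Q).card = 2) (hY : (Y ∩ Q).card = 1)
    (hZ : (Z ∩ Q).card = 0) : Nd r G E g (X ∩ E) (Y ∩ E) (Z ∩ E) := by
  obtain ⟨x1, x2, x3, x4⟩ := blk h hQ hQE t.subA t.a
  obtain ⟨y1, y2⟩ := blk_one h hQ hQE t.subB t.b hY
  obtain ⟨z1, z2, z3, -⟩ := blk h hQ hQE t.subC t.c
  refine ⟨by omega, x3, ?_, y1, y2, by omega, by omega, ?_, ?_, ?_, ?_⟩
  · unfold Gn
    omega
  · exact disjoint_of_subset_left inter_subset_left (disjoint_of_subset_right inter_subset_left t.ab)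
  · exact disjoint_of_subset_left inter_subset_left (disjoint_of_subset_right inter_subset_left t.ac)
  · exact disjoint_of_subset_left inter_subset_left (disjoint_of_subset_right inter_subset_left t.bc)
  · rw [← union_inter_distrib_right, ← union_inter_distrib_right, t.un]
    exact inter_eq_right.2 subset_union_left

/-- A partition with three, no, no new elements in the blocks. -/
theorem nd3_of (h : RankFn r) (hQ : Cop r G Q) (hQE : Disjoint E Q)
    (t : T3 r (E ∪ Q) (g + 1) X Y Z) (hX : (X ∩ Q).card = 3) (hY : (Y ∩ Q).card = 0)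
    (hZ : (Z ∩ Q).card = 0) : Nd3 r G E g (X ∩ E) (Y ∩ E) (Z ∩ E) := by
  obtain ⟨x1, x2, x3, x4⟩ := blk h hQ hQE t.subA t.a
  obtain ⟨y1, y2, y3, -⟩ := blk h hQ hQE t.subB t.b
  obtain ⟨z1, z2, z3, -⟩ := blk h hQ hQE t.subC t.c
  have hle : r (X ∩ E) + 3 ≤ r (X ∩ E ∪ G) := by omega
  refine ⟨?_, x3, hle, by omega, by omega, by omega, by omega, ?_, ?_, ?_, ?_⟩
  · have h1 := t.a.2
    have h2 := h.mono (X ∩ E ∪ X ∩ Q) (X ∩ E ∪ X ∩ Q) (Subset.refl _)
    have h3 := rk_le_union_card h (X ∩ E) (X ∩ Q)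
    omega
  · exact disjoint_of_subset_left inter_subset_left (disjoint_of_subset_right inter_subset_left t.ab)
  · exact disjoint_of_subset_left inter_subset_left (disjoint_of_subset_right inter_subset_left t.ac)
  · exact disjoint_of_subset_left inter_subset_left (disjoint_of_subset_right inter_subset_left t.bc)
  · rw [← union_inter_distrib_right, ← union_inter_distrib_right, t.un]
    exact inter_eq_right.2 subset_union_left

/-- A partition with one new element in every block. -/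
theorem t3_of (h : RankFn r) (hQ : Cop r G Q) (hQE : Disjoint E Q)
    (t : T3 r (E ∪ Q) (g + 1) X Y Z) (hX : (X ∩ Q).card = 1) (hY : (Y ∩ Q).card = 1)
    (hZ : (Z ∩ Q).card = 1) : T3 (tt r G) E g (X ∩ E) (Y ∩ E) (Z ∩ E) := by
  refine ⟨blk_one h hQ hQE t.subA t.a hX, blk_one h hQ hQE t.subB t.b hY,
    blk_one h hQ hQE t.subC t.c hZ, ?_, ?_, ?_, ?_⟩
  · exact disjoint_of_subset_left inter_subset_left (disjoint_of_subset_right inter_subset_left t.ab)
  · exact disjoint_of_subset_left inter_subset_left (disjoint_of_subset_right inter_subset_left t.ac)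
  · exact disjoint_of_subset_left inter_subset_left (disjoint_of_subset_right inter_subset_left t.bc)
  · rw [← union_inter_distrib_right, ← union_inter_distrib_right, t.un]
    exact inter_eq_right.2 subset_union_left

/-- The colour is constant on the blocks of a partition. -/
theorem kh_cst (hS : Sys r G E g) (hκ : Cst (tt r G) E g κ) (hQ : Cop r G Q) (hQE : Disjoint E Q)
    (hQ3 : Q.card = 3) : Cst r (E ∪ Q) (g + 1) (fun X => Kh r G E g κ (X ∩ E)) := by
  intro X Y Z t hX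
  change Kh r G E g κ (X ∩ E) at hX
  show Kh r G E g κ (Y ∩ E)
  have h := hS.rk
  have hsum : (X ∩ Q).card + (Y ∩ Q).card + (Z ∩ Q).card = 3 := by
    have e : Q = (X ∩ Q) ∪ (Y ∩ Q) ∪ (Z ∩ Q) := by
      rw [← union_inter_distrib_right, ← union_inter_distrib_right, t.un]
      exact (inter_eq_right.2 subset_union_right).symm
    have d1 : Disjoint (X ∩ Q) (Y ∩ Q) :=
      disjoint_of_subset_left inter_subset_left (disjoint_of_subset_right inter_subset_left t.ab)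
    have d2 : Disjoint (X ∩ Q) (Z ∩ Q) :=
      disjoint_of_subset_left inter_subset_left (disjoint_of_subset_right inter_subset_left t.ac)
    have d3 : Disjoint (Y ∩ Q) (Z ∩ Q) :=
      disjoint_of_subset_left inter_subset_left (disjoint_of_subset_right inter_subset_left t.bc)
    rw [← card_union_of_disjoint d1, ← card_union_of_disjoint (disjoint_union_left.2 ⟨d2, d3⟩), ← e, hQ3]
  have hcase : ((X ∩ Q).card = 1 ∧ (Y ∩ Q).card = 1 ∧ (Z ∩ Q).card = 1) ∨
      ((X ∩ Q).card = 2 ∧ (Y ∩ Q).card = 1 ∧ (Z ∩ Q).card = 0) ∨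
      ((X ∩ Q).card = 2 ∧ (Y ∩ Q).card = 0 ∧ (Z ∩ Q).card = 1) ∨
      ((X ∩ Q).card = 1 ∧ (Y ∩ Q).card = 2 ∧ (Z ∩ Q).card = 0) ∨
      ((X ∩ Q).card = 1 ∧ (Y ∩ Q).card = 0 ∧ (Z ∩ Q).card = 2) ∨
      ((X ∩ Q).card = 0 ∧ (Y ∩ Q).card = 2 ∧ (Z ∩ Q).card = 1) ∨
      ((X ∩ Q).card = 0 ∧ (Y ∩ Q).card = 1 ∧ (Z ∩ Q).card = 2) ∨
      ((X ∩ Q).card = 3 ∧ (Y ∩ Q).card = 0 ∧ (Z ∩ Q).card = 0) ∨
      ((X ∩ Q).card = 0 ∧ (Y ∩ Q).card = 3 ∧ (Z ∩ Q).card = 0) ∨
      ((X ∩ Q).card = 0 ∧ (Y ∩ Q).card = 0 ∧ (Z ∩ Q).card = 3) := by omega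
  rcases hcase with ⟨k1, k2, k3⟩ | ⟨k1, k2, k3⟩ | ⟨k1, k2, k3⟩ | ⟨k1, k2, k3⟩ | ⟨k1, k2, k3⟩ |
    ⟨k1, k2, k3⟩ | ⟨k1, k2, k3⟩ | ⟨k1, k2, k3⟩ | ⟨k1, k2, k3⟩ | ⟨k1, k2, k3⟩
  · have h1 := t3_of h hQ hQE t k1 k2 k3
    rw [kh_g h1.a.1] at hX
    rw [kh_g h1.b.1]
    exact (hκ.iff h1).1 hX
  · have h1 := nd_of h hQ hQE t k1 k2 k3
    rw [kh_A hS hκ h1] at hX
    rw [kh_P h1]
    exact hX
  · have h1 := nd_of h hQ hQE t.swap23 k1 k3 k2
    rw [kh_A hS hκ h1] at hX
    rw [kh_C hS hκ h1]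
    exact hX
  · have h1 := nd_of h hQ hQE t.swap12 k2 k1 k3
    rw [kh_P h1] at hX
    rw [kh_A hS hκ h1]
    exact hX
  · have h1 := nd_of h hQ hQE t.swap13.swap23 k3 k1 k2
    rw [kh_P h1] at hX
    rw [kh_C hS hκ h1]
    exact hX
  · have h1 := nd_of h hQ hQE t.swap12.swap23 k2 k3 k1
    rw [kh_C hS hκ h1] at hX
    rw [kh_A hS hκ h1]
    exact hX
  · have h1 := nd_of h hQ hQE t.swap13 k3 k2 k1
    rw [kh_C hS hκ h1] at hX
    rw [kh_P h1]
    exact hX
  · have h1 := nd3_of h hQ hQE t k1 k2 k3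
    rw [kh_3A hS hκ h1] at hX
    rw [kh_kc h1.cC]
    exact hX
  · have h1 := nd3_of h hQ hQE t.swap12 k2 k1 k3
    rw [kh_kc h1.cC] at hX
    rw [kh_3A hS hκ h1]
    exact hX
  · have h1 := nd3_of h hQ hQE t.swap13.swap23 k3 k1 k2
    rw [kh_kc h1.cC] at hX
    rw [kh_kc h1.cD]
    exact (h1.sym hS hκ).1 hX

end Pool.Agent.PX88
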