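import Pool.Agent.CF98.Desc
import Pool.Agent.WT59.St

/-!
The exchange lemma (T) (note 1780 of MP_e6151a_ag) for two matroids `t`, `k`, a new proof by the descent lemma for the dual matroid.

`D` is a circuit of the union of `t` and `k`: `|D| = t D + k D + 1`, `|X| ≤ t X + k X` for the proper subsets.  `R`, `B` are disjoint
subsets of `D` such that for every basis `T` of `D` in `k` the circuit of `D \ T` in `t` does not meet both `R` and `B`.  Then `R`
and `B` are skew over `D \ (R ∪ B)` in `t`.

* `nl`: the nullity; `nl_mono`, `nl_super`.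
* `mod_step`: skewness is inherited by the union of two sets if the nullity grows by one.
* `tdual`: the lemma.
* `exD`: existence of `D`.  `exO`: completing a basis of `D`.
-/

set_option autoImplicit false

namespace Pool.Agent.PX88

open Finset Pool.Agent.DT3 Pool.Agent.CF98

variable {α : Type*} [DecidableEq α] {t : Finset α → ℕ} {D D1 D2 R B X Y : Finset α}

/-- The nullity. -/
def nl (t : Finset α → ℕ) (X : Finset α) : ℤ := (X.card : ℤ) - t X

theorem nl_mono (h : RankFn t) (hXY : X ⊆ Y) : nl t X ≤ nl t Y := by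
  have h1 := rk_le_union_card h X (Y \ X)
  rw [union_sdiff_of_subset hXY] at h1
  have h2 := card_sdiff_add_card_eq_card hXY
  unfold nl
  omega

theorem nl_super (h : RankFn t) (X Y : Finset α) : nl t X + nl t Y ≤ nl t (X ∪ Y) + nl t (X ∩ Y) := by
  have h1 := h.submod X Y
  have h2 := card_union_add_card_inter X Y
  unfold nl
  omega

theorem card_four (hRB : Disjoint R B) (X : Finset α) :
    (X \ B).card + (X \ R).card = X.card + (X \ (R ∪ B)).card := by
  have h1 := card_union_add_card_inter (X \ B) (X \ R)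
  have e1 : X \ B ∪ X \ R = X := by
    ext x
    have := fun (hx : x ∈ R) => disjoint_left.1 hRB hx
    simp only [mem_union, mem_sdiff]
    tauto
  have e2 : X \ B ∩ (X \ R) = X \ (R ∪ B) := by
    ext x
    simp only [mem_union, mem_sdiff, mem_inter]
    tauto
  rw [e1, e2] at h1
  omega

/-- The skewness of `R` and `B` over the rest, inside `X`. -/
def Sw (t : Finset α → ℕ) (R B X : Finset α) : Prop :=
  t (X \ B) + t (X \ R) = t X + t (X \ (R ∪ B))

theorem sw_iff (hRB : Disjoint R B) :
    Sw t R B X ↔ nl t (X \ B) + nl t (X \ R) = nl t X + nl t (X \ (R ∪ B)) := by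
  have h1 := card_four hRB X
  unfold Sw nl
  constructor
  · intro h
    omega
  · intro h
    omega

theorem sw_ge (h : RankFn t) (hRB : Disjoint R B) (X : Finset α) :
    nl t (X \ B) + nl t (X \ R) ≤ nl t X + nl t (X \ (R ∪ B)) := by
  have h1 := nl_super h (X \ B) (X \ R)
  have e1 : X \ B ∪ X \ R = X := by
    ext x
    have := fun (hx : x ∈ R) => disjoint_left.1 hRB hx
    simp only [mem_union, mem_sdiff]
    tauto
  have e2 : X \ B ∩ (X \ R) = X \ (R ∪ B) := by
    ext x
    simp only [mem_union, mem_sdiff, mem_inter]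
    tauto
  rwa [e1, e2] at h1

theorem mod_step (h : RankFn t) (hRB : Disjoint R B) (S1 : Sw t R B D1) (S2 : Sw t R B D2)
    (hn : nl t (D1 ∪ D2) = nl t D1 + 1) (hf : ∀ e ∈ D2, t (D2.erase e) = t D2) :
    Sw t R B (D1 ∪ D2) := by
  rw [sw_iff hRB] at *
  have hne : ¬ D2 ⊆ D1 := by
    intro hs
    rw [union_eq_left.2 hs] at hn
    omega
  -- the intersection
  have k1 : nl t (D1 ∩ D2) + 1 ≤ nl t D2 := by
    obtain ⟨e, he, he'⟩ := not_subset.1 hne
    have h1 : D1 ∩ D2 ⊆ D2.erase e := by
      intro x hx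
      rw [mem_inter] at hx
      refine mem_erase.2 ⟨?_, hx.2⟩
      rintro rfl
      exact he' hx.1
    have h2 := nl_mono h h1
    have h3 := card_erase_add_one he
    have h4 := hf e he
    unfold nl at *
    omega
  have g0 := sw_ge h hRB (D1 ∪ D2)
  have g12 := sw_ge h hRB (D1 ∩ D2)
  -- slots
  have aR := nl_super h (D1 \ B) (D2 \ B)
  have aB := nl_super h (D1 \ R) (D2 \ R)
  have eR1 : D1 \ B ∪ D2 \ B = (D1 ∪ D2) \ B := (union_sdiff_distrib D1 D2 B).symm
  have eB1 : D1 \ R ∪ D2 \ R = (D1 ∪ D2) \ R := (union_sdiff_distrib D1 D2 R).symm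
  have eR2 : D1 \ B ∩ (D2 \ B) = (D1 ∩ D2) \ B := by
    ext x
    simp only [mem_sdiff, mem_inter]
    tauto
  have eB2 : D1 \ R ∩ (D2 \ R) = (D1 ∩ D2) \ R := by
    ext x
    simp only [mem_sdiff, mem_inter]
    tauto
  rw [eR1, eR2] at aR
  rw [eB1, eB2] at aB
  -- the part outside `R` and `B`
  have cR := nl_super h ((D1 ∪ D2) \ (R ∪ B)) (D1 \ B)
  have cB := nl_super h ((D1 ∪ D2) \ (R ∪ B)) (D1 \ R)
  have c1 : (D1 ∪ D2) \ (R ∪ B) ∪ D1 \ B ⊆ (D1 ∪ D2) \ B := by
    intro x hx
    simp only [mem_sdiff, mem_union] at *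
    tauto
  have c2 : (D1 ∪ D2) \ (R ∪ B) ∪ D1 \ R ⊆ (D1 ∪ D2) \ R := by
    intro x hx
    simp only [mem_sdiff, mem_union] at *
    tauto
  have c3 : (D1 ∪ D2) \ (R ∪ B) ∩ (D1 \ B) = D1 \ (R ∪ B) := by
    ext x
    simp only [mem_sdiff, mem_union, mem_inter]
    tauto
  have c4 : (D1 ∪ D2) \ (R ∪ B) ∩ (D1 \ R) = D1 \ (R ∪ B) := by
    ext x
    simp only [mem_sdiff, mem_union, mem_inter]
    tauto
  have m1 := nl_mono h c1
  have m2 := nl_mono h c2
  rw [c3] at cR
  rw [c4] at cB
  have m3 : nl t ((D1 ∩ D2) \ (R ∪ B)) ≤ nl t (D2 \ (R ∪ B)) :=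
    nl_mono h (sdiff_subset_sdiff inter_subset_right (Subset.refl _))
  have m4 : nl t (D1 \ B) ≤ nl t ((D1 ∪ D2) \ B) :=
    nl_mono h (sdiff_subset_sdiff subset_union_left (Subset.refl _))
  have m5 : nl t (D1 \ R) ≤ nl t ((D1 ∪ D2) \ R) :=
    nl_mono h (sdiff_subset_sdiff subset_union_left (Subset.refl _))
  omega

/-- (T) for a circuit of the union of `t` and `k`. -/
theorem tdual {k : Finset α → ℕ} (h : RankFn t) (hk : RankFn k) (hD : D.card = t D + k D + 1)
    (hs : ∀ X ⊆ D, X ≠ D → X.card ≤ t X + k X) (hRB : Disjoint R B)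
    (hc : ∀ T ⊆ D, T.card = k D → k T = k D → ∀ z ∈ R, ∀ w ∈ B, z ∈ D \ T → w ∈ D \ T →
      t ((D \ T).erase z) = t D → t ((D \ T).erase w) = t D → False) :
    Sw t R B D := by
  set m : Finset α → ℕ := fun X => (X ∩ D).card + t (D \ X) - t D with hm
  have hmr : RankFn m := rk_dual h D
  have mval : ∀ X ⊆ D, m X = X.card + t (D \ X) - t D := by
    intro X hX
    show (X ∩ D).card + t (D \ X) - t D = _
    rw [inter_eq_left.2 hX]
  have mge : ∀ X ⊆ D, t D ≤ X.card + t (D \ X) := by
    intro X hX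
    have h1 := rk_le_union_card h (D \ X) X
    rw [sdiff_union_of_subset hX] at h1
    omega
  have hins : ∀ g X, X ⊆ D → g ∈ D → g ∉ X →
      m (insert g X) = X.card + 1 + t ((D \ X).erase g) - t D := by
    intro g X hX hg hgX
    rw [mval _ (insert_subset hg hX), card_insert_of_notMem hgX]
    congr 2
    congr 1
    ext x
    simp only [mem_sdiff, mem_insert, mem_erase]
    tauto
  have hmD : m D = k D + 1 := by
    rw [mval D (Subset.refl D), Finset.sdiff_self, h.empty]
    omega
  have hTT : ∀ T, TT m k D (k D) T → T ⊆ D ∧ T.card = k D ∧ k T = k D ∧ t (D \ T) = t D := by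
    rintro T ⟨h1, h2, h3, h4⟩
    rw [mval T h1] at h3
    have h5 := mge T h1
    exact ⟨h1, h2, h4, by omega⟩
  have hpart : ∀ g ∈ D, ∃ T, TT m k D (k D) T ∧ g ∉ T ∧ t ((D \ T).erase g) = t D := by
    intro g hg
    have h1 := card_erase_add_one hg
    have h2 := hs (D.erase g) (erase_subset g D) (by
      intro he
      exact notMem_erase g D (by rw [he]; exact hg))
    have h3 := h.mono _ _ (erase_subset g D)
    have h4 := hk.mono _ _ (erase_subset g D)
    obtain ⟨T, hT, b1, b2, b3, b4⟩ := WT59.split2 (k := t) (q := k) (Y := D.erase g) h hk (by omega)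
      (fun X hX => hs X (hX.trans (erase_subset _ _)) (by
        intro he
        rw [he] at hX
        exact notMem_erase g D (hX hg)))
    have hgT : g ∉ T := fun hn => notMem_erase g D (hT hn)
    have e : D.erase g \ T = (D \ T).erase g := by
      ext x
      simp only [mem_sdiff, mem_erase]
      tauto
    rw [e] at b3 b4
    have hTD : T ⊆ D := hT.trans (erase_subset _ _)
    refine ⟨T, ⟨hTD, by omega, ?_, by omega⟩, hgT, by omega⟩
    rw [mval T hTD]
    have h5 := h.mono _ _ (erase_subset g (D \ T))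
    have h6 := h.mono (D \ T) D sdiff_subset
    omega
  have key : Sw t R B (D \ clo m D ∅) := by
    refine desc D.card D m k (k D) (fun F => Sw t R B (D \ F)) le_rfl hmr hk hmD rfl ?_ ?_ ?_
    · intro g hg
      obtain ⟨T, hT, hgT, h1⟩ := hpart g hg
      refine ⟨T, hT, ?_⟩
      rw [hins g T hT.1 hg hgT, h1, hT.2.1]
      omega
    · intro T hT
      obtain ⟨h1, h2, h3, h4⟩ := hTT T hT
      -- the circuit
      have hC : ∀ x, x ∈ D \ clo m D T → x ∈ D \ T ∧ t ((D \ T).erase x) = t D := by
        intro x hx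
        rw [mem_sdiff, clo, mem_filter] at hx
        obtain ⟨hx, hn⟩ := hx
        have hxT : x ∉ T := by
          intro hxT
          apply hn
          rw [insert_eq_of_mem hxT]
          exact ⟨hx, rfl⟩
        refine ⟨mem_sdiff.2 ⟨hx, hxT⟩, ?_⟩
        by_contra hne
        apply hn
        refine ⟨hx, ?_⟩
        rw [hins x T h1 hx hxT, hT.2.2.1]
        have h5 := h.mono _ _ (erase_subset x (D \ T))
        have h6 := rk_le_union_card h ((D \ T).erase x) {x}
        rw [card_singleton, union_comm, ← insert_eq, insert_erase (mem_sdiff.2 ⟨hx, hxT⟩)] at h6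
        omega
      show Sw t R B (D \ clo m D T)
      by_cases hz : Disjoint (D \ clo m D T) R
      · have e1 : (D \ clo m D T) \ R = D \ clo m D T := sdiff_eq_self_of_disjoint hz
        have e2 : (D \ clo m D T) \ (R ∪ B) = (D \ clo m D T) \ B := by
          ext x
          have hx := fun (hx : x ∈ D \ clo m D T) => disjoint_left.1 hz hx
          simp only [mem_sdiff, mem_union] at hx ⊢
          tauto
        unfold Sw
        rw [e1, e2]
        omega
      · by_cases hw : Disjoint (D \ clo m D T) B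
        · have e1 : (D \ clo m D T) \ B = D \ clo m D T := sdiff_eq_self_of_disjoint hw
          have e2 : (D \ clo m D T) \ (R ∪ B) = (D \ clo m D T) \ R := by
            ext x
            have hx := fun (hx : x ∈ D \ clo m D T) => disjoint_left.1 hw hx
            simp only [mem_sdiff, mem_union] at hx ⊢
            tauto
          unfold Sw
          rw [e1, e2]
        · exfalso
          rw [not_disjoint_iff] at hz hw
          obtain ⟨z, hz1, hz2⟩ := hz
          obtain ⟨w, hw1, hw2⟩ := hw
          exact hc T h1 h2 h3 z hz2 w hw2 (hC z hz1).1 (hC w hw1).1 (hC z hz1).2 (hC w hw1).2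
    · intro F F' hF hF' hS hS' hr
      show Sw t R B (D \ (F ∩ F'))
      have e0 : D \ (F ∩ F') = D \ F ∪ D \ F' := sdiff_inter_distrib_right D F F'
      rw [e0]
      refine mod_step h hRB hS hS' ?_ ?_
      · rw [← e0, mval F hF.1, mval (F ∩ F') (inter_subset_left.trans hF.1)] at *
        have h1 := card_sdiff_add_card_eq_card hF.1
        have h2 := card_sdiff_add_card_eq_card (inter_subset_left.trans hF.1 : F ∩ F' ⊆ D)
        have h3 := mge F hF.1
        have h4 := mge _ (inter_subset_left.trans hF.1 : F ∩ F' ⊆ D)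
        unfold nl
        omega
      · intro e he
        rw [mem_sdiff] at he
        have h1 := hF'.2 e (mem_sdiff.2 he)
        rw [hins e F' hF'.1 he.1 he.2, mval F' hF'.1] at h1
        have h2 := h.mono _ _ (erase_subset e (D \ F'))
        have h3 := mge F' hF'.1
        omega
  have hcl : clo m D ∅ = ∅ := by
    apply eq_empty_of_forall_notMem
    intro e he
    rw [clo, mem_filter, hmr.empty, hins e ∅ (empty_subset D) he.1 (notMem_empty e)] at he
    obtain ⟨T, hT, hgT, h1⟩ := hpart e he.1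
    have h2 : t ((D \ T).erase e) ≤ t ((D \ ∅).erase e) :=
      h.mono _ _ (erase_subset_erase e (sdiff_subset_sdiff (Subset.refl D) (empty_subset T)))
    have h3 := he.2
    rw [card_empty] at h3
    omega
  rw [hcl, sdiff_empty] at key
  exact key

/-- The least set of positive excess. -/
theorem exD {k : Finset α → ℕ} (h : RankFn t) (hk : RankFn k) (hY : t Y + k Y + 1 ≤ Y.card) :
    ∃ D ⊆ Y, D.card = t D + k D + 1 ∧ (∀ X ⊆ D, X ≠ D → X.card ≤ t X + k X) ∧
      ∀ z ∈ Y, (∀ X ⊆ Y.erase z, X.card ≤ t X + k X) → z ∈ D := by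
  classical
  obtain ⟨D, hD, hmin⟩ := (Y.powerset.filter fun X => t X + k X + 1 ≤ X.card).exists_min_image card
    ⟨Y, mem_filter.2 ⟨mem_powerset.2 (Subset.refl Y), hY⟩⟩
  rw [mem_filter, mem_powerset] at hD
  have h1 : ∀ X ⊆ D, X ≠ D → X.card ≤ t X + k X := by
    intro X hX hne
    by_contra hn
    have h2 := hmin X (mem_filter.2 ⟨mem_powerset.2 (hX.trans hD.1), by omega⟩)
    exact hne (eq_of_subset_of_card_le hX h2)
  refine ⟨D, hD.1, ?_, h1, ?_⟩
  · have hne : D.Nonempty := by
      rw [← card_pos]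
      omega
    obtain ⟨x, hx⟩ := hne
    have h2 := h1 (D.erase x) (erase_subset x D) (by
      intro he
      exact notMem_erase x D (by rw [he]; exact hx))
    have h3 := card_erase_add_one hx
    have h4 := h.mono _ _ (erase_subset x D)
    have h5 := hk.mono _ _ (erase_subset x D)
    omega
  · intro z hz hzs
    by_contra hn
    have h2 := hzs D (fun x hx => mem_erase.2 ⟨fun e => hn (e ▸ hx), hD.1 hx⟩)
    omega

/-- Completing a basis of `D`. -/
theorem exO {k : Finset α → ℕ} (h : RankFn t) (hk : RankFn k) (hY : Y.card = t Y + k Y + 1)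
    (hle : ∀ X ⊆ Y, X.card ≤ t X + k X + 1) (hD : D ⊆ Y) (hc : D.card = t D + k D + 1) :
    ∃ O ⊆ Y \ D, ∀ T ⊆ D, ∀ z ∈ D \ T, T.card = k D → k T = k D → t ((D \ T).erase z) = t D →
      Bs k (k Y) (T ∪ O) ∧ Bs t (t Y) (Y.erase z \ (T ∪ O)) := by
  have hcD := card_sdiff_add_card_eq_card hD
  have htD := h.mono D Y hD
  have hkD := hk.mono D Y hD
  have eY : Y \ D ∪ D = Y := sdiff_union_of_subset hD
  obtain ⟨O, hO, b1, b2, b3, b4⟩ := WT59.split2 (k := fun X => t (X ∪ D) - t D)
    (q := fun X => k (X ∪ D) - k D) (Y := Y \ D) (contr_rank h D) (contr_rank hk D) (by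
      show (Y \ D).card = t (Y \ D ∪ D) - t D + (k (Y \ D ∪ D) - k D)
      rw [eY]
      omega) (by
      intro X hX
      show X.card ≤ t (X ∪ D) - t D + (k (X ∪ D) - k D)
      have k1 : Disjoint X D := disjoint_of_subset_left hX sdiff_disjoint
      have k2 := card_union_of_disjoint k1
      have k3 := hle (X ∪ D) (union_subset (hX.trans sdiff_subset) hD)
      have k4 := h.mono D (X ∪ D) subset_union_right
      have k5 := hk.mono D (X ∪ D) subset_union_right
      omega)
  change O.card = k (Y \ D ∪ D) - k D at b1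
  change k (O ∪ D) - k D = k (Y \ D ∪ D) - k D at b2
  change ((Y \ D) \ O).card = t (Y \ D ∪ D) - t D at b3
  change t ((Y \ D) \ O ∪ D) - t D = t (Y \ D ∪ D) - t D at b4
  rw [eY] at b1 b2 b3 b4
  refine ⟨O, hO, ?_⟩
  intro T hT z hz hTc hTt hzt
  have hOD : Disjoint O D := disjoint_of_subset_left hO sdiff_disjoint
  have m1 := hk.mono D (O ∪ D) subset_union_right
  have m2 := h.mono D ((Y \ D) \ O ∪ D) subset_union_right
  have hzD := (mem_sdiff.1 hz).1
  have hzT := (mem_sdiff.1 hz).2
  have e : Y.erase z \ (T ∪ O) = (D \ T).erase z ∪ (Y \ D) \ O := by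
    ext x
    have k1 := fun (hx : x ∈ O) => disjoint_left.1 hOD hx
    have k2 := fun (hx : x ∈ D) => hD hx
    have k3 := fun (hx : x ∈ T) => hT hx
    by_cases hxz : x = z
    · subst hxz
      simp only [mem_sdiff, mem_union, mem_erase]
      tauto
    · simp only [mem_sdiff, mem_union, mem_erase]
      tauto
  refine ⟨⟨?_, ?_⟩, ?_, ?_⟩
  · rw [card_union_of_disjoint (disjoint_of_subset_left hT hOD.symm), hTc, b1]
    omega
  · show k (T ∪ O) = k Y
    rw [rk_cup_congr hk hT hTt O, union_comm]
    omega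
  · have hd : Disjoint ((D \ T).erase z) ((Y \ D) \ O) := by
      rw [disjoint_left]
      intro x hx hx'
      exact (mem_sdiff.1 (mem_sdiff.1 hx').1).2 (mem_sdiff.1 (mem_of_mem_erase hx)).1
    have k1 := card_erase_add_one hz
    have k2 := card_sdiff_add_card_eq_card hT
    rw [e, card_union_of_disjoint hd, b3]
    omega
  · show t (Y.erase z \ (T ∪ O)) = t Y
    rw [e, rk_cup_congr h ((erase_subset _ _).trans sdiff_subset) hzt, union_comm]
    omega

end Pool.Agent.PX88
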