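import Pool.Agent.PX88.FC
import Pool.Agent.PX88.TLem

/-!
* `mono`: the general form of the colour argument by (T).
* `fa`: two nodes with the same first block have the same label.
* `KA`, `KC`: the labels of the first and of the third blocks.
* `Nd3`: partitions `A`, `C`, `D` of `E` with `|A| = g - 2`, `C` and `D` bases of `r`.
* `fa3`: the label of `C` depends only on `A`.
-/

set_option autoImplicit false

namespace Pool.Agent.PX88

open Finset Pool.Agent.DT3 Pool.Agent.CF98 Pool.Agent.SL65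

variable {α : Type*} [DecidableEq α] {r k : Finset α → ℕ} {z : α} {G E A P C S S' X Y D F : Finset α} {g : ℕ}
  {κ q : Finset α → Prop} {c : α → Prop}

/-- The general form of the colour argument. -/
theorem mono (h : RankFn r) (hk : RankFn k) (hG : 1 ≤ r G) (gA : Gn r G A)
    (hY : Y.card = tt r G Y + k Y + 1) (hle : ∀ X ⊆ Y, X.card ≤ tt r G X + k X + 1)
    (hst : ∀ T ⊆ Y, ∀ z ∈ Y \ T, Bs k (k Y) T → Bs (tt r G) (tt r G Y) (Y.erase z \ T) →
      r (insert z A) ≠ r A → (c z ↔ q T))
    (hS : sp r G S) (hSY : ∀ z ∈ S, z ∈ Y ∧ ∀ X ⊆ Y.erase z, X.card ≤ tt r G X + k X)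
    (hSc : ∀ z ∈ S, r (insert z A) ≠ r A → c z)
    (hS' : sp r G S') (hSY' : ∀ z ∈ S', z ∈ Y ∧ ∀ X ⊆ Y.erase z, X.card ≤ tt r G X + k X)
    (hSc' : ∀ z ∈ S', r (insert z A) ≠ r A → ¬ c z) : False := by
  classical
  have hr := tt_rank h hG
  obtain ⟨D, hD, hDc, hDs, hDz⟩ := exD (t := tt r G) (k := k) (Y := Y) hr hk (by omega)
  obtain ⟨O, hO, hO'⟩ := exO hr hk hY hle hD hDc
  set R : Finset α := D.filter fun z => r (insert z A) ≠ r A ∧ c z with hR
  set B : Finset α := D.filter fun z => r (insert z A) ≠ r A ∧ ¬ c z with hB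
  have hRB : Disjoint R B := by
    rw [disjoint_left]
    intro x hx hx'
    exact (mem_filter.1 hx').2.2 (mem_filter.1 hx).2.2
  have hsw : Sw (tt r G) R B D := by
    refine tdual hr hk hDc hDs hRB ?_
    intro T hT hTc hTt z hz w hw hzT hwT hzt hwt
    have k1 := (mem_filter.1 hz).2
    have k2 := (mem_filter.1 hw).2
    have hmem : ∀ z ∈ D \ T, z ∈ Y \ (T ∪ O) := by
      intro z hz
      rw [mem_sdiff] at hz ⊢
      refine ⟨hD hz.1, ?_⟩
      intro hn
      rcases mem_union.1 hn with hn | hn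
      · exact hz.2 hn
      · exact (mem_sdiff.1 (hO hn)).2 hz.1
    have hTO : T ∪ O ⊆ Y := union_subset (hT.trans hD) (hO.trans sdiff_subset)
    obtain ⟨b1, b2⟩ := hO' T hT z hzT hTc hTt hzt
    obtain ⟨b3, b4⟩ := hO' T hT w hwT hTc hTt hwt
    have k3 := hst (T ∪ O) hTO z (hmem z hzT) b1 b2 k1.1
    have k4 := hst (T ∪ O) hTO w (hmem w hwT) b3 b4 k2.1
    exact k2.2 (k4.2 (k3.1 k1.2))
  -- the part in the span of `A`
  set K : Finset α := D \ (R ∪ B) with hK
  have hKA : ∀ x ∈ K, r (insert x A) = r A := by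
    intro x hx
    rw [hK, mem_sdiff, mem_union] at hx
    by_contra hne
    apply hx.2
    by_cases hκx : c x
    · exact Or.inl (mem_filter.2 ⟨hx.1, hne, hκx⟩)
    · exact Or.inr (mem_filter.2 ⟨hx.1, hne, hκx⟩)
  have hRD : R ⊆ D := filter_subset _ _
  have hBD : B ⊆ D := filter_subset _ _
  have e1 : K ∪ R = D \ B := by
    ext x
    have k1 := fun (hx : x ∈ R) => hRD hx
    have k2 := fun (hx : x ∈ R) => disjoint_left.1 hRB hx
    simp only [hK, mem_union, mem_sdiff]
    tauto
  have e2 : K ∪ B = D \ R := by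
    ext x
    have k1 := fun (hx : x ∈ B) => hBD hx
    have k2 := fun (hx : x ∈ B) (hx' : x ∈ R) => disjoint_left.1 hRB hx' hx
    simp only [hK, mem_union, mem_sdiff]
    tauto
  have e3 : K ∪ (R ∪ B) = D := by
    rw [hK, sdiff_union_of_subset (union_subset hRD hBD)]
  have hsk : Sk (tt r G) R B K := by
    unfold Sk
    rw [e1, e2, e3]
    exact hsw
  have hGK : Gn r G K := gn_cl h gA (rk_union_eq h hKA)
  refine no_both h hG hGK hsk ?_ ?_
  · refine hS.mono h ?_
    intro x hx
    rw [e1, mem_sdiff]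
    refine ⟨hDz x (hSY x hx).1 (hSY x hx).2, ?_⟩
    intro hn
    have k4 := (mem_filter.1 hn).2
    exact k4.2 (hSc x hx k4.1)
  · refine hS'.mono h ?_
    intro x hx
    rw [e2, mem_sdiff]
    refine ⟨hDz x (hSY' x hx).1 (hSY' x hx).2, ?_⟩
    intro hn
    have k4 := (mem_filter.1 hn).2
    exact hSc' x hx k4.1 k4.2

/-- The union of two independent sets. -/
theorem two_ind {t : Finset α → ℕ} (ht : RankFn t) (hk : RankFn k) {B : Finset α} (hC : t C = C.card)
    (hB : k B = B.card) : ∀ X ⊆ C ∪ B, X.card ≤ t X + k X := by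
  intro X hX
  have e : X = (X ∩ C) ∪ (X ∩ B) := by
    rw [← inter_union_distrib_left, inter_eq_left.2 hX]
  have h1 : X.card ≤ (X ∩ C).card + (X ∩ B).card := by
    conv_lhs => rw [e]
    exact card_union_le _ _
  have i1 : t (X ∩ C) = (X ∩ C).card := ind_sub ht hC inter_subset_right
  have i2 : k (X ∩ B) = (X ∩ B).card := ind_sub hk hB inter_subset_right
  have m1 := ht.mono (X ∩ C) X inter_subset_left
  have m2 := hk.mono (X ∩ B) X inter_subset_left
  omega

/-- Adding a token to `A`. -/
theorem Nd.tt_ins (hS : Sys r G E g) (rA : r A = A.card) (gA : Gn r G A)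
    (hz : r (insert z A) ≠ r A) : tt r G (insert z A) = A.card + 1 := by
  have h1 := rk_ins_ne hS.rk hz
  have h2 : tt r G (insert z A) = r (insert z A) := by
    refine tt_not_sp hS.rk ?_
    unfold sp
    have h3 := ab_mono (G := G) hS.rk (subset_insert z A)
    unfold Gn at gA
    omega
  omega

/-- Nodes with the same first block have the same label. -/
theorem fa {P' C' : Finset α} (hS : Sys r G E g) (hκ : Cst (tt r G) E g κ) (h : Nd r G E g A P C)
    (h' : Nd r G E g A P' C') (hP : κ P) : κ P' := by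
  classical
  by_contra hP'
  have hr := tt_rank hS.rk hS.ab
  have hE := hS.tE
  have hcE := h.card
  have hcA := h.cA
  have hcY := card_sdiff_add_card_eq_card h.subA
  have htY : tt r G (E \ A) = g := by
    have h1 := hr.mono (E \ A) E sdiff_subset
    have h2 := hr.mono P (E \ A) (by rw [h.sdA]; exact subset_union_left)
    have h3 := h.rP
    omega
  -- the token sets
  have hz : ∀ {P C}, Nd r G E g A P C → ∀ z ∈ Sg r G g C, z ∈ E \ A ∧
      ∀ X ⊆ (E \ A).erase z, X.card ≤ tt r G X + tt r G X := by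
    intro P C h z hz
    have hzC := (mem_filter.1 hz).1
    have hzt : tt r G (C.erase z) = g := (mem_filter.1 hz).2
    have hzc : (C.erase z).card = g := by
      rw [card_erase_of_mem hzC, h.cC]
      omega
    refine ⟨by rw [h.sdA]; exact mem_union_right _ hzC, ?_⟩
    intro X hX
    refine two_ind hr hr (C := C.erase z) (B := P) (hzt.trans hzc.symm) (h.rP.trans h.cP.symm) X ?_
    intro x hx
    have h1 := mem_erase.1 (hX hx)
    rw [h.sdA, mem_union] at h1
    rcases h1.2 with h2 | h2
    · exact mem_union_right _ h2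
    · exact mem_union_left _ (mem_erase.2 ⟨h1.1, h2⟩)
  have hle : ∀ X ⊆ E \ A, X.card ≤ tt r G X + tt r G X + 1 := by
    intro X hX
    obtain ⟨z, hz1, -⟩ := h.tok hS
    have h1 := (hz h z hz1).2 (X.erase z) (erase_subset_erase z hX)
    have h2 := hr.mono _ _ (erase_subset z X)
    have h3 := pred_card_le_card_erase (s := X) (a := z)
    omega
  refine mono (q := κ) (c := fun z => κ (insert z A)) hS.rk hr hS.ab h.gA (by omega) hle ?_
    (h.sg_sp hS) (hz h) ?_ (h'.sg_sp hS) (hz h') ?_
  · intro T hT z hz b1 b2 hzA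
    have h2 := Nd.tt_ins hS h.rA h.gA hzA
    have hzE := mem_sdiff.1 (mem_sdiff.1 hz).1
    rw [htY] at b1 b2
    refine hκ.iff (C := (E \ A).erase z \ T) ⟨⟨?_, ?_⟩, b1, b2, ?_, ?_, ?_, ?_⟩
    · rw [card_insert_of_notMem hzE.2]
      exact hcA
    · omega
    · rw [disjoint_left]
      intro x hx hx'
      rcases mem_insert.1 hx with rfl | hx
      · exact (mem_sdiff.1 hz).2 hx'
      · exact (mem_sdiff.1 (hT hx')).2 hx
    · rw [disjoint_left]
      intro x hx hx'
      have k1 := mem_erase.1 (mem_sdiff.1 hx').1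
      rcases mem_insert.1 hx with h3 | hx
      · exact k1.1 h3
      · exact (mem_sdiff.1 k1.2).2 hx
    · exact disjoint_sdiff
    · ext x
      have k1 := fun (hx : x ∈ T) => mem_sdiff.1 (hT hx)
      have k2 := fun (hx : x ∈ A) => h.subA hx
      by_cases hxz : x = z
      · subst hxz
        have k3 := hzE.1
        simp only [mem_union, mem_insert, mem_sdiff, mem_erase] at *
        tauto
      · simp only [mem_union, mem_insert, mem_sdiff, mem_erase] at *
        tauto
  · intro z hz1 hz2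
    exact (h.iffA hS hκ hz1 hz2).2 hP
  · intro z hz1 hz2 hz3
    exact hP' ((h'.iffA hS hκ hz1 hz2).1 hz3)

/-- The label of a first block. -/
def KA (r : Finset α → ℕ) (G E : Finset α) (g : ℕ) (κ : Finset α → Prop) (S : Finset α) : Prop :=
  ∃ P C, Nd r G E g S P C ∧ κ P

/-- The label of a third block. -/
def KC (r : Finset α → ℕ) (G E : Finset α) (g : ℕ) (κ : Finset α → Prop) (S : Finset α) : Prop :=
  ∃ A P, Nd r G E g A P S ∧ κ P

theorem ka_iff (hS : Sys r G E g) (hκ : Cst (tt r G) E g κ) (h : Nd r G E g A P C) :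
    KA r G E g κ A ↔ κ P :=
  ⟨fun ⟨_, _, h1, h2⟩ => fa hS hκ h1 h h2, fun h1 => ⟨P, C, h, h1⟩⟩

theorem kc_iff (hS : Sys r G E g) (hκ : Cst (tt r G) E g κ) (h : Nd r G E g A P C) :
    KC r G E g κ C ↔ κ P :=
  ⟨fun ⟨_, _, h1, h2⟩ => fc hS hκ h1 h h2, fun h1 => ⟨A, P, h, h1⟩⟩

/-- Nodes with three of the new elements in the first block. -/
structure Nd3 (r : Finset α → ℕ) (G E : Finset α) (g : ℕ) (A C D : Finset α) : Prop where
  cA : A.card + 2 = g
  rA : r A = A.card
  gA : r A + 3 ≤ r (A ∪ G)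
  cC : C.card = g + 1
  rC : r C = g + 1
  cD : D.card = g + 1
  rD : r D = g + 1
  ac : Disjoint A C
  ad : Disjoint A D
  cd : Disjoint C D
  un : A ∪ C ∪ D = E

theorem Nd3.swap (h : Nd3 r G E g A C D) : Nd3 r G E g A D C :=
  ⟨h.cA, h.rA, h.gA, h.cD, h.rD, h.cC, h.rC, h.ad, h.ac, h.cd.symm, by
    rw [union_assoc, union_comm D C, ← union_assoc]; exact h.un⟩

theorem Nd3.subA (h : Nd3 r G E g A C D) : A ⊆ E := fun x hx => by
  rw [← h.un]; exact mem_union_left _ (mem_union_left _ hx)

theorem Nd3.subD (h : Nd3 r G E g A C D) : D ⊆ E := fun x hx => by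
  rw [← h.un]; exact mem_union_right _ hx

theorem Nd3.sdA (h : Nd3 r G E g A C D) : E \ A = C ∪ D := by
  rw [← h.un, union_assoc, union_sdiff_cancel_left (disjoint_union_right.2 ⟨h.ac, h.ad⟩)]

theorem Nd3.gn (h : Nd3 r G E g A C D) : Gn r G A := by
  have := h.gA
  unfold Gn
  omega

theorem gn_ins (hS : Sys r G E g) (gA : r A + 3 ≤ r (A ∪ G)) : Gn r G (insert z A) := by
  have h1 := ab_mono (G := G) hS.rk (subset_insert z A)
  have h2 := hS.rk.insert_le z A
  unfold Gn
  omega

/-- The node of a token. -/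
theorem Nd3.nd (hS : Sys r G E g) (h : Nd3 r G E g A C D) (hz : z ∈ Sg r G g D)
    (hzA : r (insert z A) ≠ r A) : Nd r G E g (insert z A) (D.erase z) C := by
  have hzD : z ∈ D := (mem_filter.1 hz).1
  have hzA' : z ∉ A := fun hn => disjoint_left.1 h.ad hn hzD
  have hzC : z ∉ C := fun hn => disjoint_left.1 h.cd hn hzD
  have h1 := rk_ins_ne hS.rk hzA
  have hcA := h.cA
  have hrA := h.rA
  refine ⟨?_, ?_, gn_ins hS h.gA, ?_, (mem_filter.1 hz).2, h.cC, h.rC, ?_, ?_, ?_, ?_⟩
  · rw [card_insert_of_notMem hzA']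
    omega
  · rw [card_insert_of_notMem hzA', h1, hrA]
  · rw [card_erase_of_mem hzD, h.cD]
    omega
  · rw [disjoint_left]
    intro x hx hx'
    rw [mem_erase] at hx'
    rcases mem_insert.1 hx with rfl | hx
    · exact hx'.1 rfl
    · exact disjoint_left.1 h.ad hx hx'.2
  · rw [disjoint_left]
    intro x hx hx'
    rcases mem_insert.1 hx with rfl | hx
    · exact hzC hx'
    · exact disjoint_left.1 h.ac hx hx'
  · rw [disjoint_left]
    intro x hx hx'
    exact disjoint_left.1 h.cd hx' (mem_of_mem_erase hx)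
  · rw [← h.un]
    ext x
    simp only [mem_union, mem_insert, mem_erase]
    constructor
    · rintro (((rfl | hx) | ⟨-, hx⟩) | hx)
      · exact Or.inr hzD
      · exact Or.inl (Or.inl hx)
      · exact Or.inr hx
      · exact Or.inl (Or.inr hx)
    · rintro ((hx | hx) | hx)
      · exact Or.inl (Or.inl (Or.inr hx))
      · exact Or.inr hx
      · by_cases hxz : x = z
        · exact Or.inl (Or.inl (Or.inl hxz))
        · exact Or.inl (Or.inr ⟨hxz, hx⟩)

/-- The two bases of `r` in a node have the same label. -/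
theorem Nd3.sym (hS : Sys r G E g) (hκ : Cst (tt r G) E g κ) (h : Nd3 r G E g A C D) :
    KC r G E g κ C ↔ KC r G E g κ D := by
  have hCE := h.swap.subD
  obtain ⟨z, hz, hzA⟩ := tok hS h.gn h.subD h.cD h.rD
  obtain ⟨w, hw, hwA⟩ := tok hS (gn_ins (z := z) hS h.gA) hCE h.cC h.rC
  have n1 := h.nd hS hz hzA
  have hw0 : r (insert w A) ≠ r A := by
    intro he
    exact hwA (hS.rk.mono_insert he (subset_insert z A))
  have n2 := h.swap.nd hS hw hw0
  have hz1 : r (insert z (insert w A)) ≠ r (insert w A) := by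
    have h1 := rk_ins_ne hS.rk hzA
    have h2 := rk_ins_ne hS.rk hwA
    have h3 := rk_ins_ne hS.rk hw0
    rw [Finset.insert_comm] at h2
    omega
  have k1 := n1.iffA hS hκ hw hwA
  have k2 := n2.iffA hS hκ hz hz1
  rw [kc_iff hS hκ n1, kc_iff hS hκ n2, ← k1, ← k2, Finset.insert_comm]

/-- The label of `C` depends only on `A`. -/
theorem fa3 {C' D' : Finset α} (hS : Sys r G E g) (hκ : Cst (tt r G) E g κ) (h : Nd3 r G E g A C D)
    (h' : Nd3 r G E g A C' D') (hP : KC r G E g κ C) : KC r G E g κ C' := by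
  classical
  by_contra hP'
  have hr := tt_rank hS.rk hS.ab
  have hE := hS.tE
  have hcA := h.cA
  have hcE : E.card = 3 * g := by
    rw [← h.un, card_union_of_disjoint (disjoint_union_left.2 ⟨h.ad, h.cd⟩),
      card_union_of_disjoint h.ac, h.cC, h.cD]
    omega
  have hcY := card_sdiff_add_card_eq_card h.subA
  have hrY : r (E \ A) = g + 1 := by
    have h1 := hS.rk.mono (E \ A) E sdiff_subset
    have h2 := hS.rk.mono C (E \ A) (by rw [h.sdA]; exact subset_union_left)
    have h3 := h.rC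
    have h4 := hS.rE
    omega
  have htY : tt r G (E \ A) = g := by
    have h1 := hr.mono (E \ A) E sdiff_subset
    have h2 := hr.mono C (E \ A) (by rw [h.sdA]; exact subset_union_left)
    have h3 := tC hS h.swap.subD h.rC
    omega
  -- the token sets
  have hz : ∀ {C D}, Nd3 r G E g A C D → ∀ z ∈ Sg r G g D, z ∈ E \ A ∧
      ∀ X ⊆ (E \ A).erase z, X.card ≤ tt r G X + r X := by
    intro C D h z hz
    have hzD := (mem_filter.1 hz).1
    have hzt : tt r G (D.erase z) = g := (mem_filter.1 hz).2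
    have hzc : (D.erase z).card = g := by
      rw [card_erase_of_mem hzD, h.cD]
      omega
    refine ⟨by rw [h.sdA]; exact mem_union_right _ hzD, ?_⟩
    intro X hX
    refine two_ind hr hS.rk (C := D.erase z) (B := C) (hzt.trans hzc.symm) (h.rC.trans h.cC.symm) X ?_
    intro x hx
    have h1 := mem_erase.1 (hX hx)
    rw [h.sdA, mem_union] at h1
    rcases h1.2 with h2 | h2
    · exact mem_union_right _ h2
    · exact mem_union_left _ (mem_erase.2 ⟨h1.1, h2⟩)
  have hle : ∀ X ⊆ E \ A, X.card ≤ tt r G X + r X + 1 := by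
    intro X hX
    obtain ⟨z, hz1, -⟩ := tok hS h.gn h.subD h.cD h.rD
    have h1 := (hz h z hz1).2 (X.erase z) (erase_subset_erase z hX)
    have h2 := hr.mono _ _ (erase_subset z X)
    have h4 := hS.rk.mono _ _ (erase_subset z X)
    have h3 := pred_card_le_card_erase (s := X) (a := z)
    omega
  refine mono (q := KC r G E g κ) (c := fun z => KA r G E g κ (insert z A)) hS.rk hS.rk hS.ab h.gn
    (by omega) hle ?_ (PX88.sg_sp hS h.subD h.cD h.rD) (hz h) ?_ (PX88.sg_sp hS h'.subD h'.cD h'.rD)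
    (hz h') ?_
  · intro T hT z hz b1 b2 hzA
    have hzE := mem_sdiff.1 (mem_sdiff.1 hz).1
    rw [htY] at b2
    rw [hrY] at b1
    have h1 := rk_ins_ne hS.rk hzA
    have hrA := h.rA
    have n : Nd r G E g (insert z A) ((E \ A).erase z \ T) T := by
      refine ⟨?_, ?_, gn_ins hS h.gA, b2.1, b2.2, b1.1, b1.2, ?_, ?_, ?_, ?_⟩
      · rw [card_insert_of_notMem hzE.2]
        omega
      · rw [card_insert_of_notMem hzE.2, h1, hrA]
      · rw [disjoint_left]
        intro x hx hx'
        have k1 := mem_erase.1 (mem_sdiff.1 hx').1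
        rcases mem_insert.1 hx with h3 | hx
        · exact k1.1 h3
        · exact (mem_sdiff.1 k1.2).2 hx
      · rw [disjoint_left]
        intro x hx hx'
        rcases mem_insert.1 hx with rfl | hx
        · exact (mem_sdiff.1 hz).2 hx'
        · exact (mem_sdiff.1 (hT hx')).2 hx
      · exact sdiff_disjoint
      · ext x
        have k1 := fun (hx : x ∈ T) => mem_sdiff.1 (hT hx)
        have k2 := fun (hx : x ∈ A) => h.subA hx
        by_cases hxz : x = z
        · subst hxz
          have k3 := hzE.1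
          simp only [mem_union, mem_insert, mem_sdiff, mem_erase] at *
          tauto
        · simp only [mem_union, mem_insert, mem_sdiff, mem_erase] at *
          tauto
    rw [ka_iff hS hκ n, kc_iff hS hκ n]
  · intro z hz1 hz2
    have n := h.nd hS hz1 hz2
    exact (ka_iff hS hκ n).2 ((kc_iff hS hκ n).1 hP)
  · intro z hz1 hz2 hz3
    have n := h'.nd hS hz1 hz2
    exact hP' ((kc_iff hS hκ n).2 ((ka_iff hS hκ n).1 hz3))

end Pool.Agent.PX88
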