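import Pool.Agent.PX88.Nd
import Pool.Agent.WT59.Tstar
import Pool.Agent.CF98.Tight

/-!
Two nodes with the same third block have the same label (by (T*), `WT59.tstar`).
-/

set_option autoImplicit false

namespace Pool.Agent.PX88

open Finset Pool.Agent.DT3 Pool.Agent.CF98 Pool.Agent.SL65

variable {α : Type*} [DecidableEq α] {r : Finset α → ℕ} {z : α} {G E A P C S X F : Finset α} {g : ℕ}
  {κ : Finset α → Prop}

theorem t3_of_st {t : Finset α → ℕ} {B : Finset α} (hE : t E = g) (h : WT59.St t t t E A B C) :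
    T3 t E g A B C :=
  ⟨⟨h.ca.trans hE, h.ra.trans hE⟩, ⟨h.cb.trans hE, h.rb.trans hE⟩, ⟨h.cc.trans hE, h.rc.trans hE⟩,
    h.dab, h.dac, h.dbc, h.un⟩

theorem Nd.tA (hS : Sys r G E g) (h : Nd r G E g A P C) : tt r G A = A.card := by
  rw [tt_gn hS.rk h.gA]
  exact h.rA

theorem Nd.two (hS : Sys r G E g) (h : Nd r G E g A P C) : Two (tt r G) (E \ C) := by
  intro X hX
  rw [h.sdC] at hX
  have hr := tt_rank hS.rk hS.ab
  have e : X = (X ∩ A) ∪ (X ∩ P) := by
    rw [← inter_union_distrib_left, inter_eq_left.2 hX]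
  have h1 : X.card ≤ (X ∩ A).card + (X ∩ P).card := by
    conv_lhs => rw [e]
    exact card_union_le _ _
  have i1 : tt r G (X ∩ A) = (X ∩ A).card := ind_sub hr (h.tA hS) inter_subset_right
  have i2 : tt r G (X ∩ P) = (X ∩ P).card := ind_sub hr (h.rP.trans h.cP.symm) inter_subset_right
  have m1 := hr.mono (X ∩ A) X inter_subset_left
  have m2 := hr.mono (X ∩ P) X inter_subset_left
  omega

/-- A tight set outside `C`. -/
theorem Nd.tight (hS : Sys r G E g) (h : Nd r G E g A P C) (hF : F ⊆ E \ C)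
    (hc : F.card = 2 * tt r G F) :
    (F ∩ A).card = tt r G F ∧ tt r G (F ∩ A) = tt r G F ∧
      (F ∩ P).card = tt r G F ∧ tt r G (F ∩ P) = tt r G F ∧ r (A ∪ F) = r A := by
  have hr := tt_rank hS.rk hS.ab
  rw [h.sdC] at hF
  have e : F = (F ∩ A) ∪ (F ∩ P) := by
    rw [← inter_union_distrib_left, inter_eq_left.2 hF]
  have h1 : F.card ≤ (F ∩ A).card + (F ∩ P).card := by
    conv_lhs => rw [e]
    exact card_union_le _ _
  have i1 : tt r G (F ∩ A) = (F ∩ A).card := ind_sub hr (h.tA hS) inter_subset_right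
  have i2 : tt r G (F ∩ P) = (F ∩ P).card := ind_sub hr (h.rP.trans h.cP.symm) inter_subset_right
  have m1 := hr.mono (F ∩ A) F inter_subset_left
  have m2 := hr.mono (F ∩ P) F inter_subset_left
  have k1 : tt r G (F ∩ A) = tt r G F := by omega
  refine ⟨by omega, k1, by omega, by omega, ?_⟩
  have k2 := rk_cup_congr hr (inter_subset_left : F ∩ A ⊆ F) k1 A
  have k3 : F ∩ A ∪ A = A := union_eq_right.2 inter_subset_right
  rw [k3, union_comm F A] at k2
  have k4 := hS.rk.mono A (A ∪ F) subset_union_left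
  have k5 := h.tA hS
  have k6 := h.rA
  by_contra hne
  have k7 : sp r G (A ∪ F) := sp_of_lt hS.rk (by omega)
  have k8 := tt_sp hS.rk hS.ab k7
  have k9 := ab_mono (G := G) hS.rk (subset_union_left : A ⊆ A ∪ F)
  have k10 := h.gA
  unfold Gn at k10
  unfold sp at k7
  omega

open Classical in
/-- The tokens of colour `q`. -/
noncomputable def XC (r : Finset α → ℕ) (G : Finset α) (g : ℕ) (κ : Finset α → Prop) (C F : Finset α) : Finset α :=
  (Sg r G g C).filter fun z => tt r G (insert z F) ≠ tt r G F ∧ κ (C.erase z)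

theorem mem_XC : z ∈ XC r G g κ C F ↔ z ∈ Sg r G g C ∧ tt r G (insert z F) ≠ tt r G F ∧
    κ (C.erase z) := by
  classical
  unfold XC
  rw [mem_filter]

theorem Cst.neg {t : Finset α → ℕ} (hκ : Cst t E g κ) : Cst t E g (fun S => ¬ κ S) := by
  intro A B C hT hA hB
  exact hA ((hκ.iff hT).2 hB)

/-- The skewness. -/
theorem Nd.skew (hS : Sys r G E g) (hκ : Cst (tt r G) E g κ) (h : Nd r G E g A P C)
    (hF : F ⊆ E \ C) (hc : F.card = 2 * tt r G F)
    (hmax : ∀ X ⊆ E \ C, X.card = 2 * tt r G X → X ⊆ F) :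
    Sk (tt r G) (XC r G g κ C F) (XC r G g (fun S => ¬ κ S) C F) F := by
  have hr := tt_rank hS.rk hS.ab
  have hE := hS.tE
  have hcE := h.card
  have hcC := h.cC
  have h2 := h.two hS
  obtain ⟨f1, f2, f3, f4, -⟩ := h.tight hS hF hc
  have hCls : WT59.Cls (tt r G) (tt r G) (tt r G) E (fun A _ _ => κ A) := by
    refine ⟨fun _ _ _ _ _ _ _ => Iff.rfl, ?_, ?_⟩
    · intro A B C A' C' h1 h2
      have k1 := hκ.iff (t3_of_st hE h1)
      have k2 := hκ.iff (t3_of_st hE h2)
      exact k1.trans k2.symm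
    · intro A B C A' B' h1 h2
      have k1 := hκ.iff13 (t3_of_st hE h1)
      have k2 := hκ.iff13 (t3_of_st hE h2)
      exact k1.trans k2.symm
  have hFE : F ⊆ E := hF.trans sdiff_subset
  refine WT59.tstar (B0 := F ∩ A) (C0 := F ∩ P) hr hr hCls ?_ h.subC ?_ hFE ?_ ?_ f1 f2 f3 f4 ?_ ?_ ?_ ?_ ?_ ?_
  · rw [hE, hcE]
    omega
  · rw [hE, hcC]
  · rw [← inter_union_distrib_left, ← h.sdC]
    exact inter_comm _ _
  · exact disjoint_of_subset_left inter_subset_right (disjoint_of_subset_right inter_subset_right h.ap)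
  · intro X hX hne
    have k1 : X ∪ F ⊆ E \ C := union_subset (hX.trans sdiff_subset) hF
    have k2 := h2 _ k1
    have k3 : Disjoint X F := disjoint_of_subset_left hX sdiff_disjoint
    have k4 := card_union_of_disjoint k3
    have k5 : (X ∪ F).card ≠ 2 * tt r G (X ∪ F) := by
      intro he
      obtain ⟨x, hx⟩ := hne
      exact (mem_sdiff.1 (hX hx)).2 (hmax _ k1 he (mem_union_left _ hx))
    omega
  · exact fun x hx => (mem_filter.1 (mem_XC.1 hx).1).1
  · exact fun x hx => (mem_filter.1 (mem_XC.1 hx).1).1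
  · intro x hx
    rcases mem_union.1 hx with hx | hx
    · exact (mem_XC.1 hx).2.1
    · exact (mem_XC.1 hx).2.1
  · intro x hx
    have h1 := mem_XC.1 hx
    exact ⟨by rw [hE]; exact (mem_filter.1 h1.1).2, fun _ _ _ => h1.2.2⟩
  · intro x hx
    have h1 := mem_XC.1 hx
    exact ⟨by rw [hE]; exact (mem_filter.1 h1.1).2, fun _ _ _ => h1.2.2⟩

/-- The colour of the label. -/
theorem Nd.lab (hS : Sys r G E g) (hκ : Cst (tt r G) E g κ) (h : Nd r G E g A P C)
    (hF : F ⊆ E \ C) (hc : F.card = 2 * tt r G F) (hs : sp r G (F ∪ XC r G g κ C F)) : κ P := by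
  by_contra hn
  refine h.not_sub hS ?_ hs
  have hAF := (h.tight hS hF hc).2.2.2.2
  intro x hx
  rcases mem_union.1 hx with hx | hx
  · have h1 := hS.rk.mono (insert x A) (A ∪ F)
      (insert_subset (mem_union_right _ hx) subset_union_left)
    have h2 := hS.rk.mono A (insert x A) (subset_insert x A)
    omega
  · by_contra hne
    have h1 := mem_XC.1 hx
    exact hn ((h.iffC hS hκ h1.1 hne).1 h1.2.2)

/-- Nodes with the same third block have the same label. -/
theorem fc {A' P' : Finset α} (hS : Sys r G E g) (hκ : Cst (tt r G) E g κ) (h : Nd r G E g A P C)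
    (h' : Nd r G E g A' P' C) (hP : κ P) : κ P' := by
  have hr := tt_rank hS.rk hS.ab
  obtain ⟨F, hF, hc, hmax⟩ := ti_max hr (h.two hS)
  obtain ⟨f1, f2, f3, f4, f5⟩ := h.tight hS hF hc
  have hG : Gn r G F := gn_cl hS.rk h.gA f5
  have hsk := h.skew hS hκ hF hc hmax
  have hsp : sp r G (F ∪ (XC r G g κ C F ∪ XC r G g (fun S => ¬ κ S) C F)) := by
    refine sp_sub hS.rk (h.sg_sp hS) (rk_union_eq hS.rk ?_)
    intro x hx
    by_cases hxF : tt r G (insert x F) = tt r G F
    · exact hS.rk.mono_insert (span_tt hS.rk hS.ab hG hxF) subset_union_left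
    · rw [insert_eq_of_mem]
      apply mem_union_right
      by_cases hκx : κ (C.erase x)
      · exact mem_union_left _ (mem_XC.2 ⟨hx, hxF, hκx⟩)
      · exact mem_union_right _ (mem_XC.2 ⟨hx, hxF, hκx⟩)
  rcases one_of hS.rk hS.ab hG hsk hsp with h1 | h1
  · exact h'.lab hS hκ hF hc h1
  · exact absurd hP (h.lab hS (Cst.neg hκ) hF hc h1)

end Pool.Agent.PX88
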