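import Pool.Agent.PX88.Asm
import Pool.Agent.FT56.Main

/-!
The connectivity of triples of bases is inherited by principal truncations and principal extensions.

* `pt_rk`: the rank function of the principal truncation.
* `tconn_of_tt`: `TConn` from the rank function.
* `tconn_princTrunc`: principal truncations.
* `tconn_princExt`: principal extensions.
-/

set_option autoImplicit false

namespace Pool.Agent.PX88

open Finset Pool.Agent.DT3 Pool.Agent.CF98 Pool.Agent.WD Pool.Agent.EX91 Pool.Agent.SL65 Pool.Agent.FT56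

variable {α : Type*}

theorem coe_rk (M : Matroid α) (Y : Finset α) : ((rkFn M Y : ℕ) : ℕ∞) = M.eRk (Y : Set α) := by
  unfold rkFn
  apply ENat.natCast_toNat
  have h1 := M.eRk_le_encard (Y : Set α)
  have h2 : (Y : Set α).encard ≠ ⊤ := by
    rw [Set.encard_ne_top_iff]
    exact Y.finite_toSet
  exact ne_top_of_le_ne_top h2 h1

theorem indep_rk {M : Matroid α} (J : Finset α) : M.Indep (J : Set α) ↔ rkFn M J = J.card := by
  rw [Matroid.indep_iff_eRk_eq_encard_of_finite (finite_toSet J), Set.encard_coe_eq_coe_finsetCard,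
    ← coe_rk]
  exact ⟨fun h => by exact_mod_cast h, fun h => by exact_mod_cast h⟩

section

variable [DecidableEq α]

/-- Elements of the closure of an independent set. -/
theorem mem_clo_rk {M : Matroid α} {B : Finset α} (hB : M.Indep (B : Set α)) {x : α} (hx : x ∈ M.E) :
    x ∈ M.closure (B : Set α) ↔ rkFn M (insert x B) = rkFn M B := by
  have h := rkFn_rank M
  rw [hB.mem_closure_iff']
  have hr := (indep_rk B).1 hB
  by_cases hxB : x ∈ B
  · rw [insert_eq_of_mem hxB]
    exact ⟨fun _ => rfl, fun _ => ⟨hx, fun _ => mem_coe.2 hxB⟩⟩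
  · have h1 := indep_rk (M := M) (insert x B)
    rw [coe_insert, card_insert_of_notMem hxB] at h1
    constructor
    · rintro ⟨-, h2⟩
      by_contra hne
      have h3 := rk_ins_ne h hne
      exact hxB (mem_coe.1 (h2 (h1.2 (by omega))))
    · intro h2
      refine ⟨hx, fun h3 => ?_⟩
      have h4 := h1.1 h3
      omega

theorem sub_clo_rk {M : Matroid α} {B G : Finset α} (hB : M.Indep (B : Set α)) (hG : (G : Set α) ⊆ M.E) :
    (G : Set α) ⊆ M.closure (B : Set α) ↔ rkFn M (B ∪ G) = rkFn M B := by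
  have h := rkFn_rank M
  constructor
  · intro h1
    exact rk_union_eq h fun x hx => (mem_clo_rk hB (hG (mem_coe.2 hx))).1 (h1 (mem_coe.2 hx))
  · intro h1 x hx
    rw [mem_clo_rk hB (hG hx)]
    have h2 := h.mono B (insert x B) (subset_insert x B)
    have h3 := h.mono (insert x B) (B ∪ G) (insert_subset (mem_union_right _ (mem_coe.1 hx)) subset_union_left)
    omega

/-- The rank function of the principal truncation. -/
theorem pt_rk {M M' : Matroid α} [M.Finite] {G : Finset α} (hG : (G : Set α) ⊆ M.E)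
    (h : ∀ B : Set α, M'.IsBase B ↔ M.Indep B ∧ B.encard + 1 = M.eRank ∧ ¬ (G : Set α) ⊆ M.closure B) :
    1 ≤ rkFn M G ∧ ∀ X : Finset α, rkFn M' X = tt (rkFn M) G X := by
  classical
  have hρ := rkFn_rank M
  -- the rank of `M`
  obtain ⟨E, hE⟩ : ∃ E : Finset α, (E : Set α) = M.E :=
    ⟨M.ground_finite.toFinset, M.ground_finite.coe_toFinset⟩
  obtain ⟨B₀, hB₀⟩ := M'.exists_isBase
  obtain ⟨b1, b2, b3⟩ := (h B₀).1 hB₀
  have hfin : B₀.Finite := M.ground_finite.subset b1.subset_ground
  obtain ⟨B₁, rfl⟩ : ∃ B₁ : Finset α, (B₁ : Set α) = B₀ := ⟨hfin.toFinset, hfin.coe_toFinset⟩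
  set g := B₁.card with hg
  have hrank : M.eRank = ((g + 1 : ℕ) : ℕ∞) := by
    rw [← b2, Set.encard_coe_eq_coe_finsetCard]
    push_cast
    rfl
  have hbase : ∀ B : Finset α, M'.IsBase (B : Set α) ↔ tt (rkFn M) G B = g ∧ B.card = g := by
    intro B
    rw [h B, hrank, indep_rk, Set.encard_coe_eq_coe_finsetCard]
    constructor
    · rintro ⟨h1, h2, h3⟩
      rw [sub_clo_rk ((indep_rk B).2 h1) hG] at h3
      have h4 : B.card + 1 = g + 1 := by exact_mod_cast h2
      have h5 := tt_not_sp hρ h3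
      omega
    · rintro ⟨h1, h2⟩
      have h3 := tt_le (r := rkFn M) (G := G) B
      have h4 := hρ.le_card B
      have h5 : rkFn M B = B.card := by omega
      refine ⟨h5, by rw [h2]; push_cast; rfl, ?_⟩
      rw [sub_clo_rk ((indep_rk B).2 h5) hG]
      intro h6
      unfold tt at h1
      rw [h6] at h1
      rcases Nat.eq_zero_or_pos g with h0 | h0
      · -- `g = 0`
        apply b3
        have e1 : B₁ = ∅ := card_eq_zero.1 (by omega)
        have e2 : B = ∅ := card_eq_zero.1 (by omega)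
        rw [e2] at h6
        rw [e1]
        exact (sub_clo_rk (by rw [coe_empty]; exact M.empty_indep) hG).2 h6
      · omega
  have hG1 : 1 ≤ rkFn M G := by
    by_contra hn
    apply b3
    rw [sub_clo_rk b1 hG]
    have h1 := rk_le_add hρ B₁ G
    have h2 := hρ.mono B₁ (B₁ ∪ G) subset_union_left
    omega
  have ht := tt_rank hρ hG1
  have hEr : rkFn M E = g + 1 := by
    have h1 : ((rkFn M E : ℕ) : ℕ∞) = ((g + 1 : ℕ) : ℕ∞) := by
      rw [coe_rk, hE, ← hrank]
      exact (M.eRank_def).symm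
    exact_mod_cast h1
  have htE : tt (rkFn M) G E = g := by
    have h1 : E ∪ G = E := union_eq_left.2 (by
      rw [← coe_subset, hE]
      exact hG)
    unfold tt
    rw [h1, hEr]
    omega
  have hind : ∀ I : Finset α, M'.Indep (I : Set α) ↔ tt (rkFn M) G I = I.card := by
    intro I
    constructor
    · intro hI
      obtain ⟨B, hB, hIB⟩ := hI.exists_isBase_superset
      have hBf : B.Finite := M.ground_finite.subset ((h B).1 hB).1.subset_ground
      obtain ⟨B', rfl⟩ : ∃ B' : Finset α, (B' : Set α) = B := ⟨hBf.toFinset, hBf.coe_toFinset⟩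
      have h1 := (hbase B').1 hB
      exact CF98.ind_sub ht (h1.1.trans h1.2.symm) (coe_subset.1 hIB)
    · intro hI
      obtain ⟨J, hJ, j1, j2⟩ := ex_basis ht I E
      have h3 : g ≤ tt (rkFn M) G (I ∪ E) := by
        rw [← htE]
        exact ht.mono _ _ subset_union_right
      have h4 : tt (rkFn M) G (I ∪ E) ≤ g := by
        have h5 : rkFn M (I ∪ E ∪ G) ≤ g + 1 := rk_le_rank hrank _
        unfold tt
        omega
      have h6 := ht.le_card (I ∪ J)
      have h7 := card_union_le I J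
      have h8 : M'.IsBase ((I ∪ J : Finset α) : Set α) := (hbase _).2 ⟨by omega, by omega⟩
      exact h8.indep.subset (coe_subset.2 subset_union_left)
  refine ⟨hG1, fun X => ?_⟩
  apply le_antisymm
  · obtain ⟨I, hI⟩ := M'.exists_isBasis' (X : Set α)
    have hIf : I.Finite := X.finite_toSet.subset hI.subset
    obtain ⟨I', rfl⟩ : ∃ I' : Finset α, (I' : Set α) = I := ⟨hIf.toFinset, hIf.coe_toFinset⟩
    have h1 : rkFn M' X = I'.card := by
      have h2 : ((rkFn M' X : ℕ) : ℕ∞) = I'.card := by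
        rw [coe_rk, hI.eRk_eq_encard, Set.encard_coe_eq_coe_finsetCard]
      exact_mod_cast h2
    have h2 := (hind I').1 hI.indep
    have h3 := ht.mono I' X (coe_subset.1 hI.subset)
    omega
  · obtain ⟨J, hJ, j1, j2⟩ := ex_basis ht ∅ X
    rw [ht.empty, empty_union, add_zero] at j1
    rw [empty_union, empty_union] at j2
    have h1 := (hind J).2 (by omega)
    have h2 := (indep_rk J).1 h1
    have h3 := (rkFn_rank M').mono J X hJ
    omega

theorem whS_of_conS {r : Finset α → ℕ} {E : Finset α} {f : ℕ} (h : ConS r E f) : WhS r E f :=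
  fun Q A B hQ hA hB hQA => h Q hQ A B hA hB hQA

/-- `TConn` from the rank function. -/
theorem tconn_of_tt {M M' : Matroid α} {G : Finset α} {g : ℕ} (hf : M.eRank = (g : ℕ∞))
    (hG1 : 1 ≤ rkFn M G) (hrk : ∀ X : Finset α, rkFn M' X = tt (rkFn M) G X) (hM : TConn M) :
    TConn M' := by
  classical
  apply tconn_of_con
  intro E f hE
  have hr := rr_rank M
  set G' : Finset (α × ℕ) := G.image fun x => (x, 0) with hG'
  have hGi : G'.image Prod.fst = G := by
    rw [hG', image_image]
    exact image_id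
  have hrk' : ∀ Y : Finset (α × ℕ), rr M' Y = tt (rr M) G' Y := by
    intro Y
    show rkFn M' (Y.image Prod.fst) = min (rkFn M (Y.image Prod.fst)) (rkFn M ((Y ∪ G').image Prod.fst) - 1)
    rw [hrk, image_union, hGi]
    rfl
  have hG'1 : 1 ≤ rr M G' := by
    show 1 ≤ rkFn M (G'.image Prod.fst)
    rw [hGi]
    exact hG1
  have hH : ∀ F f, Env (rr M) F f → Wh (rr M) F f := by
    intro F f hF
    have hmc : ∀ Y, mc (rr M) ∅ Y = rr M Y := by
      intro Y
      show rr M (Y ∪ ∅) - rr M ∅ = rr M Y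
      rw [union_empty, hr.empty]
      rfl
    have hF' : Env (mc (rr M) ∅) F f :=
      env_congr (fun Y _ => (hmc Y).symm) (mc_rank hr ∅) hF
    exact wh_of hF (whS_of_conS (con_congr (fun Y _ => hmc Y) (con_of_tconn hf hM ∅ F hF')))
  -- fresh copies
  obtain ⟨N, hN⟩ : ∃ N : ℕ, ∀ p ∈ E, p.2 < N := by
    refine ⟨E.sup (fun p => p.2 + 1), fun p hp => ?_⟩
    exact Nat.lt_of_succ_le (le_sup (f := fun p : α × ℕ => p.2 + 1) hp)
  have hE' : Env (tt (rr M) G') E f := env_congr (fun Y _ => hrk' Y) (tt_rank hr hG'1) hE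
  have key := wh_tt (u := fun k x => (x.1, N + k.val)) hr hG'1 ?_ ?_ ?_ hH hE'
  · have hw := whS_of hE' key
    exact con_congr (fun Y _ => (hrk' Y).symm) (fun Q hQ A B hA hB hQA => hw Q A B hQ hA hB hQA)
  · intro k x _ X
    show rkFn M ((insert (x.1, N + k.val) X).image Prod.fst) = rkFn M ((insert x X).image Prod.fst)
    rw [image_insert, image_insert]
  · intro k l x y hkl he
    have h1 := congrArg Prod.snd he
    have h2 : N + k.val = N + l.val := h1
    exact hkl (Fin.ext (by omega))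
  · intro k x hx
    have h1 := hN _ hx
    have h2 : N + k.val < N := h1
    omega

end

/-- PRINCIPAL TRUNCATIONS. -/
theorem tconn_princTrunc [DecidableEq α] (M M' : Matroid α) [M.Finite] (G : Set α) (hG : G ⊆ M.E)
    (h : ∀ B : Set α, M'.IsBase B ↔ M.Indep B ∧ B.encard + 1 = M.eRank ∧ ¬ G ⊆ M.closure B)
    (hM : TConn M) : TConn M' := by
  classical
  have hGf : G.Finite := M.ground_finite.subset hG
  obtain ⟨G', rfl⟩ : ∃ G' : Finset α, (G' : Set α) = G := ⟨hGf.toFinset, hGf.coe_toFinset⟩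
  obtain ⟨h1, h2⟩ := pt_rk hG h
  obtain ⟨B, hB⟩ := M.exists_isBase
  have hf : M.eRank = ((B.ncard : ℕ) : ℕ∞) := by
    rw [← hB.encard_eq_eRank, hB.finite.cast_ncard_eq]
  exact tconn_of_tt hf h1 h2 hM

/-- PRINCIPAL EXTENSIONS. -/
theorem tconn_princExt [DecidableEq α] (M M' : Matroid α) (e : α) [M.Finite] (he : e ∉ M.E) (G : Set α)
    (hG : G ⊆ M.E)
    (h : ∀ B : Set α, M'.IsBase B ↔ (e ∉ B ∧ M.IsBase B) ∨
      (e ∈ B ∧ M.Indep (B \ {e}) ∧ B.encard = M.eRank ∧ ¬ G ⊆ M.closure (B \ {e}))) (hM : TConn M) :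
    TConn M' := by
  have hd : Disjoint M.E (Matroid.freeOn ({e} : Set α)).E := by
    rw [Matroid.freeOn_ground]
    exact Set.disjoint_singleton_right.2 he
  set N := M.disjointSum (Matroid.freeOn {e}) hd with hN
  have hcap : ∀ B : Set α, B ⊆ M.E ∪ {e} → B ∩ M.E = B \ {e} := by
    intro B hB
    ext x
    constructor
    · rintro ⟨hx, hxM⟩
      exact ⟨hx, fun hxe => he (by rw [← Set.mem_singleton_iff.1 hxe]; exact hxM)⟩
    · rintro ⟨hx, hxe⟩
      exact ⟨hx, (hB hx).resolve_right hxe⟩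
  have hNi : ∀ B : Set α, N.Indep B ↔ B ⊆ M.E ∪ {e} ∧ M.Indep (B \ {e}) := by
    intro B
    rw [hN, Matroid.disjointSum_indep_iff, Matroid.freeOn_indep_iff, Matroid.freeOn_ground]
    constructor
    · rintro ⟨h1, -, h3⟩
      rw [hcap B h3] at h1
      exact ⟨h3, h1⟩
    · rintro ⟨h1, h2⟩
      rw [hcap B h1]
      exact ⟨h2, Set.inter_subset_right, h1⟩
  have hNE : N.E = M.E ∪ {e} := by
    rw [hN, Matroid.disjointSum_ground_eq, Matroid.freeOn_ground]
  have hNfin : N.Finite := by
    refine ⟨?_⟩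
    rw [hNE]
    exact M.ground_finite.union (Set.finite_singleton e)
  have hNb : ∀ B : Set α, N.IsBase B ↔ e ∈ B ∧ M.IsBase (B \ {e}) := by
    intro B
    rw [hN, Matroid.disjointSum_isBase_iff, Matroid.freeOn_isBase_iff, Matroid.freeOn_ground]
    constructor
    · rintro ⟨h1, h2, h3⟩
      have h4 : e ∈ B := by
        have : e ∈ B ∩ {e} := by
          rw [h2]
          rfl
        exact this.1
      rw [hcap B h3] at h1
      exact ⟨h4, h1⟩
    · rintro ⟨h1, h2⟩
      have h3 : B ⊆ M.E ∪ {e} := by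
        intro x hx
        by_cases hxe : x = e
        · exact Or.inr hxe
        · exact Or.inl (h2.subset_ground ⟨hx, hxe⟩)
      rw [hcap B h3]
      exact ⟨h2, Set.inter_eq_self_of_subset_right (Set.singleton_subset_iff.2 h1), h3⟩
  have hNr : N.eRank = M.eRank + 1 := by
    obtain ⟨B, hB⟩ := M.exists_isBase
    have heB : e ∉ B := fun h' => he (hB.subset_ground h')
    have h1 : N.IsBase (insert e B) := by
      rw [hNb, Set.insert_sdiff_of_mem _ (Set.mem_singleton e), Set.sdiff_singleton_eq_self heB]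
      exact ⟨Set.mem_insert e _, hB⟩
    rw [← h1.encard_eq_eRank, ← hB.encard_eq_eRank, Set.encard_insert_of_notMem heB]
  -- closures
  have hcl : ∀ B : Set α, N.Indep B → (insert e G ⊆ N.closure B ↔ e ∈ B ∧ G ⊆ M.closure (B \ {e})) := by
    intro B hB
    obtain ⟨h1, h2⟩ := (hNi B).1 hB
    have k1 : e ∈ N.closure B ↔ e ∈ B := by
      rw [hB.mem_closure_iff']
      constructor
      · rintro ⟨-, h3⟩
        apply h3
        rw [hNi]
        refine ⟨Set.insert_subset (Or.inr rfl) h1, ?_⟩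
        rw [Set.insert_sdiff_of_mem _ (Set.mem_singleton e)]
        exact h2
      · intro h3
        exact ⟨hB.subset_ground h3, fun _ => h3⟩
    have k2 : ∀ x ∈ G, x ∈ N.closure B ↔ x ∈ M.closure (B \ {e}) := by
      intro x hx
      have hxe : x ≠ e := fun h' => he (h' ▸ hG hx)
      rw [hB.mem_closure_iff', h2.mem_closure_iff', hNi, Set.insert_sdiff_of_notMem _
        (fun h' => hxe (Set.mem_singleton_iff.1 h')), hNE]
      constructor
      · rintro ⟨-, h3⟩
        refine ⟨hG hx, fun h4 => ?_⟩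
        exact ⟨h3 ⟨Set.insert_subset (Or.inl (hG hx)) h1, h4⟩, fun h' => hxe (Set.mem_singleton_iff.1 h')⟩
      · rintro ⟨-, h3⟩
        exact ⟨Or.inl (hG hx), fun h4 => (h3 h4.2).1⟩
    rw [Set.insert_subset_iff, k1]
    refine and_congr_right fun _ => ?_
    exact ⟨fun h3 x hx => (k2 x hx).1 (h3 hx), fun h3 x hx => (k2 x hx).2 (h3 hx)⟩
  refine tconn_princTrunc N M' (insert e G) ?_ ?_ (tconn_coloop M N e he hNb hM)
  · rw [hNE]
    exact Set.insert_subset (Or.inr rfl) (hG.trans Set.subset_union_left)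
  intro B
  rw [h B, hNr]
  have hMr : M.eRank ≠ ⊤ := by
    obtain ⟨B, hB⟩ := M.exists_isBase
    rw [← hB.encard_eq_eRank, Set.encard_ne_top_iff]
    exact M.ground_finite.subset hB.subset_ground
  constructor
  · rintro (⟨h1, h2⟩ | ⟨h1, h2, h3, h4⟩)
    · have hBi : N.Indep B := by
        rw [hNi, Set.sdiff_singleton_eq_self h1]
        exact ⟨h2.subset_ground.trans Set.subset_union_left, h2.indep⟩
      refine ⟨hBi, by rw [h2.encard_eq_eRank], ?_⟩
      rw [hcl B hBi]
      exact fun h3 => h1 h3.1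
    · have hBi : N.Indep B := by
        rw [hNi]
        refine ⟨?_, h2⟩
        intro x hx
        by_cases hxe : x = e
        · exact Or.inr hxe
        · exact Or.inl (h2.subset_ground ⟨hx, hxe⟩)
      refine ⟨hBi, by rw [h3], ?_⟩
      rw [hcl B hBi]
      exact fun h5 => h4 h5.2
  · rintro ⟨h1, h2, h3⟩
    have h5 : B.encard = M.eRank := WithTop.add_right_cancel (by simp : (1 : ℕ∞) ≠ ⊤) h2
    rw [hcl B h1] at h3
    obtain ⟨h6, h7⟩ := (hNi B).1 h1
    by_cases heB : e ∈ B
    · right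
      exact ⟨heB, h7, h5, fun h8 => h3 ⟨heB, h8⟩⟩
    · left
      rw [Set.sdiff_singleton_eq_self heB] at h7
      refine ⟨heB, ?_⟩
      refine h7.isBase_of_eRk_ge (M.ground_finite.subset h7.subset_ground) ?_
      rw [h7.eRk_eq_encard, h5]

end Pool.Agent.PX88
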