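import Pool.Agent.PX88.Tt
import Pool.Agent.SL65.T3
import Pool.Agent.CF98.Circ

/-!
Nodes.  `E` is a system of three blocks of the principal truncation `tt r G`, `r E = g + 1`, `G` is spanned by `E`.

* `Sys r G E g`: the assumptions.
* `Nd r G E g A P C`: a partition of `E` with `|A| = g - 1`, `G` of rank at least two over `A`, `P` a basis of `tt r G`, `C` a basis of `r`.
* `Sg r G g C`: the circuit of `tt r G` in `C`; it spans `G`.
* `Nd.st`: for `z` in `Sg C` outside the span of `A` the sets `A + z`, `C - z`, `P` are a partition into three bases of `tt r G`.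
* `Nd.tok`: there is such a `z`.
-/

set_option autoImplicit false

namespace Pool.Agent.PX88

open Finset Pool.Agent.DT3 Pool.Agent.CF98 Pool.Agent.SL65

variable {α : Type*} [DecidableEq α] {r : Finset α → ℕ} {z : α} {G E A P C S X : Finset α} {g : ℕ}
  {κ : Finset α → Prop}

/-- The assumptions. -/
structure Sys (r : Finset α → ℕ) (G E : Finset α) (g : ℕ) : Prop where
  rk : RankFn r
  ab : 1 ≤ r G
  rE : r E = g + 1
  spE : sp r G E

/-- Nodes with two of the new elements in the first block and one in the second block. -/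
structure Nd (r : Finset α → ℕ) (G E : Finset α) (g : ℕ) (A P C : Finset α) : Prop where
  cA : A.card + 1 = g
  rA : r A = A.card
  gA : Gn r G A
  cP : P.card = g
  rP : tt r G P = g
  cC : C.card = g + 1
  rC : r C = g + 1
  ap : Disjoint A P
  ac : Disjoint A C
  pc : Disjoint P C
  un : A ∪ P ∪ C = E

/-- The circuit of the truncation in `C`. -/
def Sg (r : Finset α → ℕ) (G : Finset α) (g : ℕ) (C : Finset α) : Finset α :=
  C.filter fun c => tt r G (C.erase c) = g

theorem Sys.tE (hS : Sys r G E g) : tt r G E = g := by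
  have h1 := tt_sp hS.rk hS.ab hS.spE
  have h2 := hS.rE
  omega

theorem Nd.subA (h : Nd r G E g A P C) : A ⊆ E := fun x hx => by
  rw [← h.un]; exact mem_union_left _ (mem_union_left _ hx)

theorem Nd.subP (h : Nd r G E g A P C) : P ⊆ E := fun x hx => by
  rw [← h.un]; exact mem_union_left _ (mem_union_right _ hx)

theorem Nd.subC (h : Nd r G E g A P C) : C ⊆ E := fun x hx => by
  rw [← h.un]; exact mem_union_right _ hx

theorem Nd.card (h : Nd r G E g A P C) : E.card = 3 * g := by
  rw [← h.un, card_union_of_disjoint (disjoint_union_left.2 ⟨h.ac, h.pc⟩),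
    card_union_of_disjoint h.ap, h.cP, h.cC]
  have := h.cA
  omega

theorem Nd.sdC (h : Nd r G E g A P C) : E \ C = A ∪ P := by
  rw [← h.un, union_sdiff_right, sdiff_eq_self_of_disjoint (disjoint_union_left.2 ⟨h.ac, h.pc⟩)]

theorem Nd.sdA (h : Nd r G E g A P C) : E \ A = P ∪ C := by
  rw [← h.un, union_assoc, union_sdiff_cancel_left (disjoint_union_right.2 ⟨h.ap, h.ac⟩)]

/-- A basis of `r` in `E`. -/
theorem tC (hS : Sys r G E g) (hCE : C ⊆ E) (rC : r C = g + 1) : tt r G C = g := by
  have h1 : sp r G C := by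
    refine sp_sub hS.rk hS.spE ?_
    rw [union_eq_right.2 hCE, hS.rE, rC]
  have h2 := tt_sp hS.rk hS.ab h1
  omega

theorem sg_sp (hS : Sys r G E g) (hCE : C ⊆ E) (cC : C.card = g + 1) (rC : r C = g + 1) :
    sp r G (Sg r G g C) := by
  have hC := tC hS hCE rC
  have h1 := circ_card (r := tt r G) (G := C) (tt_rank hS.rk hS.ab) (by rw [hC]; exact cC)
  rw [hC] at h1
  change (Sg r G g C).card = tt r G (Sg r G g C) + 1 at h1
  refine sp_of_lt hS.rk ?_
  have h2 : r (Sg r G g C) = (Sg r G g C).card :=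
    ind_sub hS.rk (Y := C) (rC.trans cC.symm) (filter_subset _ _)
  omega

theorem Nd.sg_sp (hS : Sys r G E g) (h : Nd r G E g A P C) : sp r G (Sg r G g C) :=
  PX88.sg_sp hS h.subC h.cC h.rC

theorem not_sub (h : RankFn r) (gA : Gn r G A) (hX : ∀ x ∈ X, r (insert x A) = r A) :
    ¬ sp r G X := by
  intro hs
  have h1 := rk_union_eq h hX
  exact gn_not_sp gA (sp_sub h hs h1)

theorem tok (hS : Sys r G E g) (gA : Gn r G A) (hCE : C ⊆ E) (cC : C.card = g + 1)
    (rC : r C = g + 1) : ∃ z ∈ Sg r G g C, r (insert z A) ≠ r A := by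
  by_contra hn
  push Not at hn
  exact not_sub hS.rk gA hn (PX88.sg_sp hS hCE cC rC)

/-- The state of a token. -/
theorem Nd.st (hS : Sys r G E g) (h : Nd r G E g A P C) (hz : z ∈ Sg r G g C)
    (hzA : r (insert z A) ≠ r A) : T3 (tt r G) E g (insert z A) (C.erase z) P := by
  have hzC : z ∈ C := (mem_filter.1 hz).1
  have hzA' : z ∉ A := fun hn => disjoint_left.1 h.ac hn hzC
  have hzP : z ∉ P := fun hn => disjoint_left.1 h.pc hn hzC
  have h1 := rk_ins_ne hS.rk hzA
  have hcA := h.cA
  have hrA := h.rA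
  have h2 : tt r G (insert z A) = r (insert z A) := by
    refine tt_not_sp hS.rk ?_
    unfold sp
    have h3 := ab_mono (G := G) hS.rk (subset_insert z A)
    have h4 := h.gA
    unfold Gn at h4
    omega
  refine ⟨⟨?_, ?_⟩, ⟨?_, (mem_filter.1 hz).2⟩, ⟨h.cP, h.rP⟩, ?_, ?_, ?_, ?_⟩
  · rw [card_insert_of_notMem hzA']
    exact hcA
  · show tt r G (insert z A) = g
    omega
  · rw [card_erase_of_mem hzC, h.cC]
    omega
  · rw [disjoint_left]
    intro x hx hx'
    rw [mem_erase] at hx'
    rcases mem_insert.1 hx with rfl | hx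
    · exact hx'.1 rfl
    · exact disjoint_left.1 h.ac hx hx'.2
  · rw [disjoint_left]
    intro x hx hx'
    rcases mem_insert.1 hx with rfl | hx
    · exact hzP hx'
    · exact disjoint_left.1 h.ap hx hx'
  · rw [disjoint_left]
    intro x hx hx'
    exact disjoint_left.1 h.pc hx' (mem_of_mem_erase hx)
  · rw [← h.un]
    ext x
    simp only [mem_union, mem_insert, mem_erase]
    constructor
    · rintro (((rfl | hx) | ⟨-, hx⟩) | hx)
      · exact Or.inr hzC
      · exact Or.inl (Or.inl hx)
      · exact Or.inr hx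
      · exact Or.inl (Or.inr hx)
    · rintro ((hx | hx) | hx)
      · exact Or.inl (Or.inl (Or.inr hx))
      · exact Or.inr hx
      · by_cases hxz : x = z
        · exact Or.inl (Or.inl (Or.inl hxz))
        · exact Or.inl (Or.inr ⟨hxz, hx⟩)

theorem Nd.not_sub (hS : Sys r G E g) (h : Nd r G E g A P C)
    (hX : ∀ x ∈ X, r (insert x A) = r A) : ¬ sp r G X := PX88.not_sub hS.rk h.gA hX

theorem Nd.tok (hS : Sys r G E g) (h : Nd r G E g A P C) :
    ∃ z ∈ Sg r G g C, r (insert z A) ≠ r A := PX88.tok hS h.gA h.subC h.cC h.rC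

theorem Nd.iffA (hS : Sys r G E g) (hκ : Cst (tt r G) E g κ) (h : Nd r G E g A P C)
    (hz : z ∈ Sg r G g C) (hzA : r (insert z A) ≠ r A) : κ (insert z A) ↔ κ P :=
  hκ.iff13 (h.st hS hz hzA)

theorem Nd.iffC (hS : Sys r G E g) (hκ : Cst (tt r G) E g κ) (h : Nd r G E g A P C)
    (hz : z ∈ Sg r G g C) (hzA : r (insert z A) ≠ r A) : κ (C.erase z) ↔ κ P :=
  hκ.iff (h.st hS hz hzA).swap12.swap23

end Pool.Agent.PX88
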