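import Pool.Agent.CF98.SkI

/-!
The principal truncation of a rank function along a set `G` (MP_e6151a_ag, note 3113).

* `tt r G X = min (r X) (r (X ∪ G) - 1)`.
* `sp r G X`: `G` is spanned by `X`.
* `Gn r G F`: `G` has rank at least two over `F`.
* `no_both`, `one_of`: if `X1` and `X2` are skew over `F` for `tt r G`, `Gn r G F`, and `G` is spanned by `F ∪ X1 ∪ X2`, then
  exactly one of `F ∪ X1`, `F ∪ X2` spans `G`.
-/

set_option autoImplicit false

namespace Pool.Agent.PX88

open Finset Pool.Agent.DT3 Pool.Agent.CF98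

variable {α : Type*} [DecidableEq α] {r : Finset α → ℕ} {x : α} {A F G X X1 X2 Y : Finset α}

/-- The rank function of the principal truncation along `G`. -/
def tt (r : Finset α → ℕ) (G X : Finset α) : ℕ := min (r X) (r (X ∪ G) - 1)

/-- `G` is spanned by `X`. -/
def sp (r : Finset α → ℕ) (G X : Finset α) : Prop := r (X ∪ G) = r X

/-- `G` has rank at least two over `F`. -/
def Gn (r : Finset α → ℕ) (G F : Finset α) : Prop := r F + 2 ≤ r (F ∪ G)

theorem rk_ge (h : RankFn r) (X : Finset α) : r X ≤ r (X ∪ G) := h.mono _ _ subset_union_left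

theorem ab_mono (h : RankFn r) (hXY : X ⊆ Y) : r (X ∪ G) ≤ r (Y ∪ G) :=
  h.mono _ _ (union_subset_union_left hXY)

/-- The span of `Y` grows less than the span of `X`. -/
theorem ab_sub (h : RankFn r) (hXY : X ⊆ Y) : r (Y ∪ G) + r X ≤ r (X ∪ G) + r Y := by
  have h1 := h.submod (X ∪ G) Y
  have h2 : X ∪ G ∪ Y = Y ∪ G := by
    ext z
    have := fun (hz : z ∈ X) => hXY hz
    simp only [mem_union]
    tauto
  have h3 : r X ≤ r ((X ∪ G) ∩ Y) := h.mono _ _ (subset_inter subset_union_left hXY)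
  rw [h2] at h1
  omega

theorem sp.mono (h : RankFn r) (hs : sp r G X) (hXY : X ⊆ Y) : sp r G Y := by
  unfold sp at *
  have h1 := ab_sub (G := G) h hXY
  have h2 := rk_ge (G := G) h Y
  omega

theorem ab_pos (h : RankFn r) (hab : 1 ≤ r G) (X : Finset α) : 1 ≤ r (X ∪ G) := by
  have := h.mono G (X ∪ G) subset_union_right
  omega

theorem tt_le (X : Finset α) : tt r G X ≤ r X := min_le_left _ _

theorem tt_sp (h : RankFn r) (hab : 1 ≤ r G) (hs : sp r G X) : tt r G X + 1 = r X := by
  have h1 := ab_pos h hab X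
  unfold sp at hs
  unfold tt
  omega

theorem tt_not_sp (h : RankFn r) (hs : ¬ sp r G X) : tt r G X = r X := by
  have h1 := rk_ge (G := G) h X
  unfold sp at hs
  unfold tt
  omega

theorem gn_not_sp (hA : Gn r G A) : ¬ sp r G A := by
  unfold Gn at hA
  unfold sp
  omega

theorem tt_gn (h : RankFn r) (hs : Gn r G X) : tt r G X = r X := tt_not_sp h (gn_not_sp hs)

theorem sp_of_lt (h : RankFn r) (hs : tt r G X < r X) : sp r G X := by
  by_contra h1
  have := tt_not_sp h h1
  omega

theorem tt_rank (h : RankFn r) (hab : 1 ≤ r G) : RankFn (tt r G) := by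
  refine ⟨?_, ?_, ?_, ?_⟩
  · unfold tt
    rw [h.empty]
    exact Nat.zero_min _
  · intro X Y hXY
    have h1 := h.mono X Y hXY
    have h2 := ab_mono (G := G) h hXY
    unfold tt
    omega
  · intro x X
    have h1 := h.insert_le x X
    have h2 := ab_pos h hab X
    have h3 := h.insert_le x (X ∪ G)
    rw [← insert_union] at h3
    unfold tt
    omega
  · intro X Y
    have h1 := h.submod X Y
    have h2 := h.submod (X ∪ G) (Y ∪ G)
    have h3 := h.submod X (Y ∪ G)
    have h4 := h.submod (X ∪ G) Y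
    have p1 := ab_pos h hab X
    have p2 := ab_pos h hab Y
    have p3 := ab_pos h hab (X ∪ Y)
    have p4 := ab_pos h hab (X ∩ Y)
    have e1 : X ∪ G ∪ (Y ∪ G) = X ∪ Y ∪ G := by
      ext y
      simp only [mem_union]
      tauto
    have e2 : (X ∪ G) ∩ (Y ∪ G) = X ∩ Y ∪ G := by
      ext y
      simp only [mem_union, mem_inter]
      tauto
    have e3 : X ∪ (Y ∪ G) = X ∪ Y ∪ G := (union_assoc _ _ _).symm
    have e4 : X ∪ G ∪ Y = X ∪ Y ∪ G := union_right_comm _ _ _
    have i3 : r (X ∩ Y) ≤ r (X ∩ (Y ∪ G)) := h.mono _ _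
      (inter_subset_inter (Subset.refl X) subset_union_left)
    have i4 : r (X ∩ Y) ≤ r ((X ∪ G) ∩ Y) := h.mono _ _
      (inter_subset_inter subset_union_left (Subset.refl Y))
    rw [e1, e2] at h2
    rw [e3] at h3
    rw [e4] at h4
    unfold tt
    omega

theorem gn_sub (h : RankFn r) (hA : Gn r G A) (hF : F ⊆ A) : Gn r G F := by
  unfold Gn at *
  have h1 := ab_sub (G := G) h hF
  omega

/-- `F` is spanned by `A`. -/
theorem gn_cl (h : RankFn r) (hA : Gn r G A) (hF : r (A ∪ F) = r A) : Gn r G F := by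
  refine gn_sub (A := A ∪ F) h ?_ subset_union_right
  unfold Gn at *
  have h1 := ab_mono (G := G) h (subset_union_left : A ⊆ A ∪ F)
  omega

theorem no_both (h : RankFn r) (hab : 1 ≤ r G) (hF : Gn r G F) (hs : Sk (tt r G) X1 X2 F)
    (h1 : sp r G (F ∪ X1)) (h2 : sp r G (F ∪ X2)) : False := by
  unfold Sk at hs
  have h3 : sp r G (F ∪ (X1 ∪ X2)) := h1.mono h (union_subset_union_right subset_union_left)
  have t1 := tt_sp h hab h1
  have t2 := tt_sp h hab h2
  have t3 := tt_sp h hab h3
  have t4 := tt_gn h hF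
  have s1 := h.submod (F ∪ X1 ∪ G) (F ∪ X2 ∪ G)
  have s2 : r (F ∪ (X1 ∪ X2)) ≤ r (F ∪ X1 ∪ G ∪ (F ∪ X2 ∪ G)) := by
    refine h.mono _ _ ?_
    intro y hy
    simp only [mem_union] at *
    tauto
  have s3 : r (F ∪ G) ≤ r ((F ∪ X1 ∪ G) ∩ (F ∪ X2 ∪ G)) := by
    refine h.mono _ _ ?_
    intro y hy
    simp only [mem_union, mem_inter] at *
    tauto
  unfold sp at h1 h2
  unfold Gn at hF
  omega

theorem one_of (h : RankFn r) (hab : 1 ≤ r G) (hF : Gn r G F) (hs : Sk (tt r G) X1 X2 F)
    (h3 : sp r G (F ∪ (X1 ∪ X2))) : sp r G (F ∪ X1) ∨ sp r G (F ∪ X2) := by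
  by_contra hn
  push Not at hn
  unfold Sk at hs
  have t1 := tt_not_sp h hn.1
  have t2 := tt_not_sp h hn.2
  have t3 := tt_sp h hab h3
  have t4 := tt_gn h hF
  have s1 := h.submod (F ∪ X1) (F ∪ X2)
  have s2 : r (F ∪ (X1 ∪ X2)) ≤ r ((F ∪ X1) ∪ (F ∪ X2)) := by
    refine h.mono _ _ ?_
    intro y hy
    simp only [mem_union] at *
    tauto
  have s3 : r F ≤ r ((F ∪ X1) ∩ (F ∪ X2)) := by
    refine h.mono _ _ ?_
    intro y hy
    simp only [mem_union, mem_inter] at *
    tauto
  omega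

/-- A subset of the span of `X` spans at most as much as `X`. -/
theorem sp_sub {S : Finset α} (h : RankFn r) (hs : sp r G S) (hX : r (X ∪ S) = r X) : sp r G X := by
  have h1 := hs.mono h (subset_union_right : S ⊆ X ∪ S)
  unfold sp at *
  have h2 := ab_mono (G := G) h (subset_union_left : X ⊆ X ∪ S)
  have h3 := rk_ge (G := G) h X
  omega

/-- An element spanned by `F` in the truncation. -/
theorem span_tt {z : α} (h : RankFn r) (hab : 1 ≤ r G) (hF : Gn r G F)
    (hz : tt r G (insert z F) = tt r G F) : r (insert z F) = r F := by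
  have h1 := tt_gn h hF
  have h2 := h.mono F (insert z F) (subset_insert z F)
  have h6 := h.insert_le z F
  by_contra hne
  have h3 : sp r G (insert z F) := sp_of_lt h (by omega)
  have h4 := tt_sp h hab h3
  have h5 := ab_mono (G := G) h (subset_insert z F)
  unfold Gn at hF
  unfold sp at h3
  omega

end Pool.Agent.PX88
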